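import Pool.Agent.Q6.SI.Prod

set_option autoImplicit false
set_option maxHeartbeats 400000

namespace Pool.Agent.Q6.SI

open Equiv

lemma solvable_of_le {G : Type} [Group G] {M H : Subgroup G} (h : M ≤ H)
    (hH : Group.IsSolvable H) : Group.IsSolvable M :=
  Group.isSolvable_of_isSolvable_injective (f := Subgroup.inclusion h) (Subgroup.inclusion_injective h)

lemma ker_le {Ω : Type} (H : Subgroup (Perm Ω)) (r : Setoid Ω) : ker H r ≤ H := fun _ h => h.1

/-- sum of the sizes of the fibres -/
lemma sum_fib {Ω ι : Type} [Fintype Ω] [Fintype ι] [DecidableEq ι] (π : Ω → ι) :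
    ∑ c, Fintype.card {a // π a = c} = Fintype.card Ω := by
  rw [← Fintype.card_sigma]
  exact Fintype.card_congr (Equiv.sigmaFiberEquiv π)

lemma fib_pos {Ω ι : Type} [Fintype Ω] [Fintype ι] [DecidableEq ι] (π : Ω → ι)
    (hπ : Function.Surjective π) (c : ι) : 1 ≤ Fintype.card {a // π a = c} := by
  obtain ⟨a, ha⟩ := hπ c
  exact Fintype.card_pos_iff.mpr ⟨⟨a, ha⟩⟩

lemma sum_fib_sub {Ω ι : Type} [Fintype Ω] [Fintype ι] [DecidableEq ι] (π : Ω → ι)
    (hπ : Function.Surjective π) :
    ∑ c, (Fintype.card {a // π a = c} - 1) + Fintype.card ι = Fintype.card Ω := by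
  rw [← sum_fib π]
  have : Fintype.card ι = ∑ _c : ι, 1 := by simp
  rw [this, ← Finset.sum_add_distrib]
  refine Finset.sum_congr rfl (fun c _ => ?_)
  have := fib_pos π hπ c
  omega

lemma fib_lt {Ω ι : Type} [Fintype Ω] [Fintype ι] [DecidableEq ι] (π : Ω → ι) (c : ι)
    {a b : Ω} (hab : π a ≠ π b) : Fintype.card {a // π a = c} < Fintype.card Ω := by
  by_cases ha : π a = c
  · apply Fintype.card_subtype_lt (x := b)
    rw [← ha]
    exact fun h => hab h.symm
  · exact Fintype.card_subtype_lt ha

lemma card_glue {Ω ι : Type} [Fintype Ω] [Fintype ι] [DecidableEq ι] (π : Ω → ι)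
    (hπ : Function.Surjective π)
    (M : Subgroup (Perm Ω)) (hM : ∀ m ∈ M, ∀ a, π (m a) = π a)
    (hb : ∀ c, Nat.card (rng π M hM c) ≤ 16 ^ (Fintype.card {a // π a = c} - 1)) :
    Nat.card M ≤ 16 ^ (Fintype.card Ω - Fintype.card ι) := by
  classical
  have h1 := Nat.card_le_card_of_injective _ (toPi_injective π M hM)
  rw [Nat.card_pi] at h1
  refine h1.trans ?_
  refine (Finset.prod_le_prod (fun c _ => Nat.zero_le _) (fun c _ => hb c)).trans ?_
  rw [Finset.prod_pow_eq_pow_sum]
  apply Nat.pow_le_pow_right (by norm_num)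
  have := sum_fib_sub π hπ
  omega

theorem card_le (n : ℕ) : ∀ (Ω : Type) [Fintype Ω] [DecidableEq Ω], Fintype.card Ω = n → 1 ≤ n →
    ∀ H : Subgroup (Perm Ω), Group.IsSolvable H → Nat.card H ≤ 16 ^ (n - 1) := by
  classical
  induction n using Nat.strong_induction_on with
  | _ n ih =>
    intro Ω _ _ hn h1 H hH
    by_cases h2 : n = 1
    · subst h2
      have : Subsingleton Ω := Fintype.card_le_one_iff_subsingleton.mp hn.le
      have h3 : Nat.card H ≤ 1 := Finite.card_le_one_iff_subsingleton.mpr inferInstance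
      simpa using h3
    · have hne : ∃ a b : Ω, a ≠ b := by
        have : 1 < Fintype.card Ω := by omega
        exact Fintype.exists_pair_of_one_lt_card this
      by_cases ht : ∀ a b : Ω, ∃ h ∈ H, h a = b
      · obtain ⟨r, ⟨a, b, hab⟩, -, -, hcard⟩ := structure_lemma H hne ht
        have hM : ∀ m ∈ ker H r, ∀ a, Quotient.mk r (m a) = Quotient.mk r a :=
          fun m hm a => (mk_eq r _ _).mpr (hm.2 a)
        have hMs : Group.IsSolvable (ker H r) := solvable_of_le (ker_le H r) hH
        have h4 := card_glue (Quotient.mk r) Quotient.mk_surjective (ker H r) hM (fun c => by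
          refine ih _ ?_ _ rfl (fib_pos _ Quotient.mk_surjective c) _
            (rng_solvable (Quotient.mk r) (ker H r) hM c)
          rw [← hn]
          exact fib_lt (Quotient.mk r) c (fun h => hab ((mk_eq r a b).mp h)))
        have h5 : 1 ≤ Fintype.card (Quotient r) := Fintype.card_pos_iff.mpr ⟨Quotient.mk r a⟩
        have h6 : Fintype.card (Quotient r) ≤ Fintype.card Ω :=
          Fintype.card_le_of_surjective _ Quotient.mk_surjective
        refine hcard.trans ((Nat.mul_le_mul le_rfl h4).trans ?_)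
        rw [← pow_add, Nat.card_eq_fintype_card]
        apply Nat.pow_le_pow_right (by norm_num)
        omega
      · push Not at ht
        obtain ⟨a, b, hab⟩ := ht
        have hab' : ¬ (orb H) a b := fun ⟨h, hh, hhab⟩ => hab h hh hhab
        have hM : ∀ m ∈ H, ∀ a, Quotient.mk (orb H) (m a) = Quotient.mk (orb H) a :=
          fun m hm a => (mk_eq _ _ _).mpr ⟨m⁻¹, H.inv_mem hm, by simp⟩
        have h4 := card_glue (Quotient.mk (orb H)) Quotient.mk_surjective H hM (fun c => by
          refine ih _ ?_ _ rfl (fib_pos _ Quotient.mk_surjective c) _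
            (rng_solvable (Quotient.mk (orb H)) H hM c)
          rw [← hn]
          exact fib_lt (Quotient.mk (orb H)) c (fun h => hab' ((mk_eq _ a b).mp h)))
        have h5 : 1 ≤ Fintype.card (Quotient (orb H)) :=
          Fintype.card_pos_iff.mpr ⟨Quotient.mk (orb H) a⟩
        refine h4.trans (Nat.pow_le_pow_right (by norm_num) ?_)
        omega

end Pool.Agent.Q6.SI
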