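import Pool.Agent.Q6.SI.Pack

set_option autoImplicit false
set_option maxHeartbeats 400000

namespace Pool.Agent.Q6.SI

open Equiv

variable {Ω : Type} [Fintype Ω] [DecidableEq Ω] (f g : Ω → ℕ)

/-- representatives of the nontrivial cycles -/
lemma exists_reps (h : Perm Ω) : ∃ R : Finset Ω, 2 * R.card ≤ h.support.card ∧ R ⊆ h.support ∧
    ∀ a ∈ h.support, ∃ b ∈ R, ∃ i : ℤ, a = (h ^ i) b := by
  classical
  let rep : Ω → Ω := fun a => Quotient.out (Quotient.mk (Perm.SameCycle.setoid h) a)
  have hrep : ∀ a, h.SameCycle (rep a) a := fun a =>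
    Quotient.exact (Quotient.out_eq (Quotient.mk (Perm.SameCycle.setoid h) a))
  have hrep2 : ∀ a b, h.SameCycle a b → rep a = rep b := by
    intro a b hab
    have : Quotient.mk (Perm.SameCycle.setoid h) a = Quotient.mk (Perm.SameCycle.setoid h) b :=
      Quotient.sound hab
    simp only [rep, this]
  have hsupp : ∀ a b, h.SameCycle a b → b ∈ h.support → a ∈ h.support := by
    intro a b hab hb
    rw [Perm.mem_support] at hb ⊢
    intro h1
    exact hb (hab.apply_eq_self_iff.mp h1)
  refine ⟨h.support.image rep, ?_, ?_, ?_⟩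
  · have hdisj : Disjoint (h.support.image rep) ((h.support.image rep).image h) := by
      rw [Finset.disjoint_left]
      intro b hb hb'
      rw [Finset.mem_image] at hb hb'
      obtain ⟨a, ha, rfl⟩ := hb
      obtain ⟨c, hc, hca⟩ := hb'
      rw [Finset.mem_image] at hc
      obtain ⟨d, hd, rfl⟩ := hc
      have h1 : h.SameCycle (rep d) (rep a) := ⟨1, by simpa using hca⟩
      have h2 : rep (rep d) = rep (rep a) := hrep2 _ _ h1
      have h3 : rep (rep d) = rep d := hrep2 _ _ (hrep d)
      have h4 : rep (rep a) = rep a := hrep2 _ _ (hrep a)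
      rw [h3, h4] at h2
      have h5 : rep d ∈ h.support := hsupp _ _ (hrep d) hd
      rw [Perm.mem_support] at h5
      exact h5 (by rw [hca, h2])
    have h1 := Finset.card_union_of_disjoint hdisj
    rw [Finset.card_image_of_injective _ h.injective] at h1
    have h2 : (h.support.image rep ∪ (h.support.image rep).image h).card ≤ h.support.card := by
      apply Finset.card_le_card
      intro b hb
      rw [Finset.mem_union, Finset.mem_image, Finset.mem_image] at hb
      rcases hb with ⟨a, ha, rfl⟩ | ⟨c, hc, rfl⟩
      · exact hsupp _ _ (hrep a) ha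
      · rw [Finset.mem_image] at hc
        obtain ⟨d, hd, rfl⟩ := hc
        rw [Perm.apply_mem_support]
        exact hsupp _ _ (hrep d) hd
    omega
  · intro b hb
    rw [Finset.mem_image] at hb
    obtain ⟨a, ha, rfl⟩ := hb
    exact hsupp _ _ (hrep a) ha
  · intro a ha
    obtain ⟨i, hi⟩ := hrep a
    exact ⟨rep a, Finset.mem_image_of_mem _ ha, i, hi.symm⟩

omit [Fintype Ω] [DecidableEq Ω] in
lemma zpow_comm {x h k : Perm Ω} (hx : x * h = k * x) (i : ℤ) : x * h ^ i = k ^ i * x := by
  have : k = x * h * x⁻¹ := by rw [hx]; group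
  rw [this, conj_zpow]
  group

open Classical in
/-- the packings which carry `h` to `k` -/
noncomputable def col (h k : Perm Ω) : Finset (Perm Ω) :=
  Finset.univ.filter (fun x => IsPack f g x ∧ x * h = k * x)

lemma mem_col {h k x : Perm Ω} : x ∈ col f g h k ↔ IsPack f g x ∧ x * h = k * x := by
  classical
  simp [col]

lemma card_col (hf : ∀ k, (Finset.univ.filter (fun a => f a = k)).card ≤ 7)
    (hg : ∀ k, (Finset.univ.filter (fun a => g a = k)).card ≤ 7) (h k : Perm Ω) (B m : ℕ)
    (hm : m ≤ h.support.card) (hB : m + 98 + B ≤ Fintype.card Ω) :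
    (col f g h k).card * B ^ m ≤
      h.support.card ^ (h.support.card / 2) * (packs f g ∅ 1).card := by
  classical
  by_cases he : (col f g h k).Nonempty
  swap
  · rw [Finset.not_nonempty_iff_eq_empty] at he
    rw [he]
    simp
  obtain ⟨x₁, hx₁⟩ := he
  rw [mem_col] at hx₁
  obtain ⟨R, hR2, hRs, hR⟩ := exists_reps h
  have hk : k.support.card = h.support.card := by
    have : k = x₁ * h * x₁⁻¹ := by rw [hx₁.2]; group
    rw [this, Perm.card_support_conj]
  let res : Perm Ω → (R → Ω) := fun x a => x a
  have hmaps : ∀ x ∈ col f g h k, res x ∈ Fintype.piFinset (fun _ : R => k.support) := by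
    intro x hx
    rw [mem_col] at hx
    rw [Fintype.mem_piFinset]
    intro a
    simp only [res]
    rw [Perm.mem_support]
    intro h1
    have h2 : (x * h) a = (k * x) a := by rw [hx.2]
    rw [Perm.mul_apply, Perm.mul_apply, h1] at h2
    have h3 := x.injective h2
    have h4 := hRs a.2
    rw [Perm.mem_support] at h4
    exact h4 h3
  obtain ⟨S, hSs, hSm⟩ := Finset.exists_subset_card_eq hm
  have hfib : ∀ r ∈ Fintype.piFinset (fun _ : R => k.support),
      ((col f g h k).filter (fun x => res x = r)).card ≤ (packs f g ∅ 1).card / B ^ m ∨ B = 0 := by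
    intro r _
    by_cases hB0 : B = 0
    · exact Or.inr hB0
    left
    rw [Nat.le_div_iff_mul_le (by positivity)]
    by_cases hne : ((col f g h k).filter (fun x => res x = r)).Nonempty
    · obtain ⟨x₀, hx₀⟩ := hne
      rw [Finset.mem_filter, mem_col] at hx₀
      have hsub : (col f g h k).filter (fun x => res x = r) ⊆ packs f g S x₀ := by
        intro x hx
        rw [Finset.mem_filter, mem_col] at hx
        rw [mem_packs]
        refine ⟨hx.1.1, ?_⟩
        intro a ha
        obtain ⟨b, hb, i, rfl⟩ := hR a (hSs ha)
        have h1 : x b = x₀ b := by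
          have := congrFun (hx.2.trans hx₀.2.symm) ⟨b, hb⟩
          exact this
        have h2 : (x * h ^ i) b = (k ^ i * x) b := by rw [zpow_comm hx.1.2]
        have h3 : (x₀ * h ^ i) b = (k ^ i * x₀) b := by rw [zpow_comm hx₀.1.2]
        rw [Perm.mul_apply, Perm.mul_apply] at h2 h3
        rw [h2, h3, h1]
      have h4 := packs_bound f g hf hg x₀ B S (by omega)
      rw [hSm, packs_empty f g x₀ 1] at h4
      exact (Nat.mul_le_mul (Finset.card_le_card hsub) le_rfl).trans h4
    · rw [Finset.not_nonempty_iff_eq_empty] at hne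
      rw [hne]
      simp
  by_cases hB0 : B = 0
  · subst hB0
    by_cases hm0 : m = 0
    · subst hm0
      rw [pow_zero, mul_one]
      have h1 : (col f g h k).card ≤ (packs f g ∅ 1).card := by
        apply Finset.card_le_card
        intro x hx
        rw [mem_col] at hx
        rw [mem_packs]
        exact ⟨hx.1, by simp⟩
      refine h1.trans ?_
      have h2 : 1 ≤ h.support.card ^ (h.support.card / 2) := by
        by_cases h0 : h.support.card = 0
        · rw [h0]; simp
        · exact Nat.one_le_pow _ _ (by omega)
      exact Nat.le_mul_of_pos_left _ h2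
    · rw [zero_pow hm0]
      simp
  · have h1 := Finset.card_le_mul_card_image_of_maps_to hmaps ((packs f g ∅ 1).card / B ^ m)
      (fun r hr => (hfib r hr).resolve_right hB0)
    have h2 : (Fintype.piFinset (fun _ : R => k.support)).card ≤
        h.support.card ^ (h.support.card / 2) := by
      rw [Fintype.card_piFinset, Finset.prod_const, hk, Finset.card_univ, Fintype.card_coe]
      by_cases h0 : h.support.card = 0
      · have : R.card = 0 := by omega
        rw [h0, this]
      · exact Nat.pow_le_pow_right (by omega) (by omega)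
    have h3 : (packs f g ∅ 1).card / B ^ m * B ^ m ≤ (packs f g ∅ 1).card :=
      Nat.div_mul_le_self _ _
    calc (col f g h k).card * B ^ m
        ≤ ((packs f g ∅ 1).card / B ^ m *
          (Fintype.piFinset (fun _ : R => k.support)).card) * B ^ m := Nat.mul_le_mul h1 le_rfl
      _ = (Fintype.piFinset (fun _ : R => k.support)).card *
          ((packs f g ∅ 1).card / B ^ m * B ^ m) := by ring
      _ ≤ h.support.card ^ (h.support.card / 2) * (packs f g ∅ 1).card := Nat.mul_le_mul h2 h3

end Pool.Agent.Q6.SI
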