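import Pool.Agent.Q6.SI.Mom

set_option autoImplicit false
set_option maxHeartbeats 400000

namespace Pool.Agent.Q6.SI

open Equiv

lemma large_ineq (n : ℕ) (hn : 2 ^ 200 ≤ n) :
    12 * 256 ^ n * n ^ (n / 2) ≤ (n / 8) ^ (3 * (n / 4)) := by
  have hbig : (16 : ℕ) ≤ 2 ^ 200 := by norm_num
  have hn16 : 16 ≤ n := hbig.trans hn
  set q := n / 4 with hq
  have hq2 : 2 ≤ q := by omega
  have h1 : n ≤ 4 * q + 3 := by omega
  have h2 : n / 2 ≤ 2 * q + 1 := by omega
  have h3 : n ≤ 16 * (n / 8) := by omega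
  have h4 : (2 : ℕ) ^ (44 * q + 28) ≤ n ^ (q - 1) := by
    calc (2 : ℕ) ^ (44 * q + 28) ≤ 2 ^ (200 * (q - 1)) :=
          Nat.pow_le_pow_right (by norm_num) (by omega)
      _ = (2 ^ 200) ^ (q - 1) := by rw [pow_mul]
      _ ≤ n ^ (q - 1) := Nat.pow_le_pow_left hn _
  have h5 : 12 * 256 ^ n * n ^ (n / 2) * 16 ^ (3 * q) ≤ n ^ (3 * q) := by
    have e1 : (256 : ℕ) ^ n ≤ 2 ^ (32 * q + 24) := by
      calc (256 : ℕ) ^ n ≤ 256 ^ (4 * q + 3) := Nat.pow_le_pow_right (by norm_num) h1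
        _ = 2 ^ (32 * q + 24) := by
          have : (256 : ℕ) = 2 ^ 8 := by norm_num
          rw [this, ← pow_mul]
          congr 1
          ring
    have e2 : n ^ (n / 2) ≤ n ^ (2 * q + 1) := Nat.pow_le_pow_right (by omega) h2
    have e3 : (16 : ℕ) ^ (3 * q) = 2 ^ (12 * q) := by
      have : (16 : ℕ) = 2 ^ 4 := by norm_num
      rw [this, ← pow_mul]
      congr 1
      ring
    calc 12 * 256 ^ n * n ^ (n / 2) * 16 ^ (3 * q)
        ≤ 2 ^ 4 * 2 ^ (32 * q + 24) * n ^ (2 * q + 1) * 2 ^ (12 * q) := by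
          rw [e3]
          gcongr
          norm_num
      _ = 2 ^ (44 * q + 28) * n ^ (2 * q + 1) := by
          have : 2 ^ (44 * q + 28) = (2 : ℕ) ^ 4 * 2 ^ (32 * q + 24) * 2 ^ (12 * q) := by
            rw [← pow_add, ← pow_add]
            congr 1
            ring
          rw [this]
          ring
      _ ≤ n ^ (q - 1) * n ^ (2 * q + 1) := Nat.mul_le_mul h4 le_rfl
      _ = n ^ (3 * q) := by
          rw [← pow_add]
          congr 1
          omega
  have h6 : n ^ (3 * q) ≤ 16 ^ (3 * q) * (n / 8) ^ (3 * q) := by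
    rw [← mul_pow]
    exact Nat.pow_le_pow_left h3 _
  have h7 : 16 ^ (3 * q) * (12 * 256 ^ n * n ^ (n / 2)) ≤ 16 ^ (3 * q) * (n / 8) ^ (3 * q) := by
    calc 16 ^ (3 * q) * (12 * 256 ^ n * n ^ (n / 2))
        = 12 * 256 ^ n * n ^ (n / 2) * 16 ^ (3 * q) := by ring
      _ ≤ n ^ (3 * q) := h5
      _ ≤ _ := h6
  exact Nat.le_of_mul_le_mul_left h7 (by positivity)

/-- the real number estimate for the pairs with support of size `s` -/
lemma small_ineq (n s : ℕ) (hn : 2 ^ 200 ≤ n) (hs : 1 ≤ s) (hsn : s ≤ n) :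
    ∃ t : ℝ, 0 < t ∧ t ≤ 1 ∧ ∀ c p P : ℝ, 0 ≤ c → 0 ≤ p → 0 ≤ P →
      p * t ^ (3 * s) ≤ 65536 ^ s * (1 + t ^ 4) ^ (2 * (2 * n - 1)) →
      c * ((n / 8 : ℕ) : ℝ) ^ s ≤ (s : ℝ) ^ (s / 2) * P → p * c ≤ (1 / 4) ^ s * P := by
  have hn0 : (0 : ℝ) < n := by
    have : 0 < n := by omega
    exact_mod_cast this
  have hs0 : (0 : ℝ) < s := by exact_mod_cast hs
  set t : ℝ := ((s : ℝ) / n) ^ ((1 : ℝ) / 4) with ht
  have hdiv : 0 < (s : ℝ) / n := by positivity
  have hdiv1 : (s : ℝ) / n ≤ 1 := by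
    rw [div_le_one hn0]
    exact_mod_cast hsn
  have ht0 : 0 < t := Real.rpow_pos_of_pos hdiv _
  have ht1 : t ≤ 1 := Real.rpow_le_one hdiv.le hdiv1 (by norm_num)
  have ht4 : t ^ 4 = (s : ℝ) / n := by
    rw [ht, ← Real.rpow_natCast, ← Real.rpow_mul hdiv.le]
    norm_num
  refine ⟨t, ht0, ht1, ?_⟩
  intro c p P hc hp hP h1 h2
  -- the factor with the exponential function
  have h3 : (1 + t ^ 4) ^ (2 * (2 * n - 1)) ≤ 81 ^ s := by
    calc (1 + t ^ 4) ^ (2 * (2 * n - 1)) ≤ (1 + t ^ 4) ^ (4 * n) := by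
          apply pow_le_pow_right₀
          · have : (0 : ℝ) ≤ t ^ 4 := by positivity
            linarith
          · omega
      _ ≤ (Real.exp (t ^ 4)) ^ (4 * n) := by
          apply pow_le_pow_left₀ (by positivity)
          rw [add_comm]
          exact Real.add_one_le_exp _
      _ = (Real.exp 1) ^ (4 * s) := by
          rw [← Real.exp_nat_mul, ← Real.exp_nat_mul, ht4]
          congr 1
          push_cast
          field_simp
      _ ≤ 3 ^ (4 * s) := by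
          apply pow_le_pow_left₀ (Real.exp_pos _).le
          have := Real.exp_one_lt_d9
          linarith
      _ = 81 ^ s := by
          rw [pow_mul]
          norm_num
  have hB : (n : ℝ) / 16 ≤ ((n / 8 : ℕ) : ℝ) := by
    have h5 : n ≤ 16 * (n / 8) := by
      have hbig : (16 : ℕ) ≤ 2 ^ 200 := by norm_num
      have hn16 : 16 ≤ n := hbig.trans hn
      omega
    have h6 : (n : ℝ) ≤ 16 * ((n / 8 : ℕ) : ℝ) := by exact_mod_cast h5
    linarith
  have hsq : (s : ℝ) ^ (s / 2) ≤ (Real.sqrt s) ^ s := by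
    have h5 : (1 : ℝ) ≤ Real.sqrt s := by
      rw [Real.one_le_sqrt]
      exact_mod_cast hs
    calc (s : ℝ) ^ (s / 2) = (Real.sqrt s) ^ (2 * (s / 2)) := by
          rw [pow_mul, Real.sq_sqrt hs0.le]
      _ ≤ (Real.sqrt s) ^ s := pow_le_pow_right₀ h5 (by omega)
  have hst : Real.sqrt s = Real.sqrt n * t ^ 2 := by
    rw [Real.sqrt_eq_iff_mul_self_eq hs0.le (by positivity)]
    have : Real.sqrt n * t ^ 2 * (Real.sqrt n * t ^ 2) = (Real.sqrt n * Real.sqrt n) * t ^ 4 := by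
      ring
    rw [this, Real.mul_self_sqrt hn0.le, ht4]
    field_simp
  -- lower bound for sqrt n * t
  have hlow : (2 : ℝ) ^ 50 ≤ Real.sqrt n * t := by
    have h5 : ((2 : ℝ) ^ 50) ^ 4 ≤ (Real.sqrt n * t) ^ 4 := by
      have h6 : (Real.sqrt n * t) ^ 4 = n * s := by
        have : (Real.sqrt n * t) ^ 4 = (Real.sqrt n * Real.sqrt n) * (Real.sqrt n * Real.sqrt n)
          * t ^ 4 := by ring
        rw [this, Real.mul_self_sqrt hn0.le, ht4]
        field_simp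
      rw [h6]
      have h7 : (2 : ℝ) ^ 200 ≤ n := by exact_mod_cast hn
      have h8 : (1 : ℝ) ≤ s := by exact_mod_cast hs
      have h9 : ((2 : ℝ) ^ 50) ^ 4 = 2 ^ 200 := by rw [← pow_mul]
      rw [h9]
      refine h7.trans ?_
      calc (n : ℝ) = (n : ℝ) * 1 := by rw [mul_one]
        _ ≤ (n : ℝ) * s := mul_le_mul_of_nonneg_left h8 hn0.le
    exact le_of_pow_le_pow_left₀ (by norm_num) (by positivity) h5
  -- combine
  have h6 : c * (n / 16) ^ s ≤ (Real.sqrt s) ^ s * P := by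
    calc c * ((n : ℝ) / 16) ^ s ≤ c * ((n / 8 : ℕ) : ℝ) ^ s := by
          apply mul_le_mul_of_nonneg_left _ hc
          exact pow_le_pow_left₀ (by positivity) hB _
      _ ≤ (s : ℝ) ^ (s / 2) * P := h2
      _ ≤ (Real.sqrt s) ^ s * P := mul_le_mul_of_nonneg_right hsq hP
  have h7 : p * t ^ (3 * s) ≤ (65536 * 81) ^ s := by
    calc p * t ^ (3 * s) ≤ 65536 ^ s * (1 + t ^ 4) ^ (2 * (2 * n - 1)) := h1
      _ ≤ 65536 ^ s * 81 ^ s := by gcongr
      _ = (65536 * 81) ^ s := by rw [mul_pow]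
  have h8 : (p * t ^ (3 * s)) * (c * ((n : ℝ) / 16) ^ s) ≤
      (65536 * 81) ^ s * ((Real.sqrt s) ^ s * P) := by
    apply mul_le_mul h7 h6 (by positivity) (by positivity)
  have hpos : 0 < t ^ 3 * (n / 16) := by positivity
  have h9 : (p * c) * (t ^ 3 * (n / 16)) ^ s ≤ (65536 * 81 * Real.sqrt s) ^ s * P := by
    calc (p * c) * (t ^ 3 * ((n : ℝ) / 16)) ^ s
        = (p * t ^ (3 * s)) * (c * ((n : ℝ) / 16) ^ s) := by
          rw [mul_pow, ← pow_mul]; ring
      _ ≤ _ := h8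
      _ = _ := by rw [mul_pow (65536 * 81) (Real.sqrt s)]; ring
  have h10 : 65536 * 81 * Real.sqrt s ≤ 1 / 4 * (t ^ 3 * (n / 16)) := by
    rw [hst]
    have h11 : (n : ℝ) = Real.sqrt n * Real.sqrt n := (Real.mul_self_sqrt hn0.le).symm
    have h12 : 1 / 4 * (t ^ 3 * ((n : ℝ) / 16)) = (Real.sqrt n * t ^ 2) * (Real.sqrt n * t) / 64 := by
      rw [h11]
      rw [← h11]
      nlinarith [h11]
    rw [h12]
    have h13 : 0 < Real.sqrt n * t ^ 2 := by
      have : 0 < Real.sqrt n := Real.sqrt_pos.mpr hn0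
      positivity
    have h14 : (65536 * 81 : ℝ) ≤ (Real.sqrt n * t) / 64 := by
      rw [le_div_iff₀ (by norm_num)]
      refine le_trans ?_ hlow
      norm_num
    calc 65536 * 81 * (Real.sqrt n * t ^ 2) ≤ (Real.sqrt n * t) / 64 * (Real.sqrt n * t ^ 2) :=
          mul_le_mul_of_nonneg_right h14 h13.le
      _ = _ := by ring
  have h11 : (65536 * 81 * Real.sqrt s) ^ s ≤ (1 / 4) ^ s * (t ^ 3 * (n / 16)) ^ s := by
    rw [← mul_pow]
    exact pow_le_pow_left₀ (by positivity) h10 _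
  have h12 : (p * c) * (t ^ 3 * (n / 16)) ^ s ≤ ((1 / 4) ^ s * P) * (t ^ 3 * (n / 16)) ^ s := by
    refine h9.trans ?_
    calc (65536 * 81 * Real.sqrt s) ^ s * P ≤ ((1 / 4) ^ s * (t ^ 3 * (n / 16)) ^ s) * P :=
          mul_le_mul_of_nonneg_right h11 hP
      _ = _ := by ring
  exact le_of_mul_le_mul_right h12 (by positivity)

end Pool.Agent.Q6.SI
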