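import Mathlib

set_option autoImplicit false
set_option maxHeartbeats 400000

namespace Pool.Agent.Q6.SI

open Equiv

/-- `T` is a commutative transitive subgroup normalised by `X`. -/
structure Hol {ι : Type} (X T : Subgroup (Perm ι)) : Prop where
  le : T ≤ X
  norm : ∀ x ∈ X, ∀ t ∈ T, x * t * x⁻¹ ∈ T
  comm : ∀ t ∈ T, ∀ u ∈ T, t * u = u * t
  trans : ∀ a b : ι, ∃ t ∈ T, t a = b

namespace Hol

variable {ι : Type} {X T : Subgroup (Perm ι)} (h : Hol X T)

include h

lemma eq_of_eq {t u : Perm ι} (ht : t ∈ T) (hu : u ∈ T) {a : ι} (hab : t a = u a) : t = u := by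
  ext b
  obtain ⟨s, hs, rfl⟩ := h.trans a b
  have h1 := congrArg (fun f : Perm ι => f a) (h.comm t ht s hs)
  have h2 := congrArg (fun f : Perm ι => f a) (h.comm u hu s hs)
  simp only [Perm.mul_apply] at h1 h2
  rw [h1, h2, hab]

lemma conj_eq {x t : Perm ι} (hx : x ∈ X) (ht : t ∈ T) {a : ι} (ha : x a = a)
    (hta : x (t a) = t a) : x * t * x⁻¹ = t := by
  apply h.eq_of_eq (h.norm x hx t ht) ht (a := a)
  have : x⁻¹ a = a := by
    rw [Perm.inv_eq_iff_eq, ha]
  rw [Perm.mul_apply, Perm.mul_apply, this, hta]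

omit h in
lemma fixed_of_conj {x t : Perm ι} {a : ι} (ha : x a = a)
    (hc : x * t * x⁻¹ = t) : x (t a) = t a := by
  have h1 := congrArg (fun f : Perm ι => f a) hc
  have : x⁻¹ a = a := by
    rw [Perm.inv_eq_iff_eq, ha]
  simpa only [Perm.mul_apply, this] using h1

lemma fix_le [Fintype ι] [DecidableEq ι] {x : Perm ι} (hx : x ∈ X) (hx1 : x ≠ 1) :
    2 * (Finset.univ.filter (fun a => x a = a)).card ≤ Fintype.card ι := by
  by_cases hF : ∃ a, x a = a
  · obtain ⟨a, ha⟩ := hF
    obtain ⟨j, hj⟩ : ∃ j, x j ≠ j := by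
      by_contra hcon
      push Not at hcon
      exact hx1 (Equiv.ext hcon)
    obtain ⟨u, hu, rfl⟩ := h.trans a j
    have hdisj : Disjoint (Finset.univ.filter (fun a => x a = a))
        ((Finset.univ.filter (fun a => x a = a)).image u) := by
      rw [Finset.disjoint_left]
      intro b hb hb'
      simp only [Finset.mem_filter, Finset.mem_univ, true_and, Finset.mem_image] at hb hb'
      obtain ⟨i, hi, rfl⟩ := hb'
      obtain ⟨t, ht, rfl⟩ := h.trans a i
      have h1 := h.conj_eq hx ht ha hi
      have h2 := h.conj_eq hx (T.mul_mem hu ht) ha (by simpa using hb)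
      have h3 : x * u * x⁻¹ = u := by
        have : x * (u * t) * x⁻¹ = (x * u * x⁻¹) * (x * t * x⁻¹) := by group
        rw [this, h1] at h2
        exact mul_right_cancel h2
      exact hj (fixed_of_conj ha h3)
    have h4 := Finset.card_union_of_disjoint hdisj
    rw [Finset.card_image_of_injective _ u.injective] at h4
    have h5 := Finset.card_le_univ (Finset.univ.filter (fun a => x a = a) ∪
      (Finset.univ.filter (fun a => x a = a)).image u)
    omega
  · push Not at hF
    have : Finset.univ.filter (fun a => x a = a) = ∅ := by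
      ext a
      simp [hF a]
    rw [this]
    simp

end Hol

/-- a finite group is generated by a list with at most as many elements as the logarithm -/
lemma exists_gen (T : Type) [Group T] [Finite T] :
    ∃ l : List T, Subgroup.closure {t | t ∈ l} = ⊤ ∧ 2 ^ l.length ≤ Nat.card T := by
  have key : ∀ m : ℕ, ∀ l : List T, 2 ^ l.length ≤ Nat.card (Subgroup.closure {t | t ∈ l}) →
      Nat.card T - Nat.card (Subgroup.closure {t | t ∈ l}) ≤ m →
      ∃ l : List T, Subgroup.closure {t | t ∈ l} = ⊤ ∧ 2 ^ l.length ≤ Nat.card T := by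
    intro m
    induction m using Nat.strong_induction_on with
    | _ m ih =>
      intro l hl hm
      by_cases hT : Subgroup.closure {t | t ∈ l} = ⊤
      · refine ⟨l, hT, hl.trans ?_⟩
        exact Subgroup.card_le_card_group _
      · obtain ⟨g, hg⟩ : ∃ g, g ∉ Subgroup.closure {t | t ∈ l} := by
          by_contra hcon
          push Not at hcon
          exact hT (by ext g; simp [hcon g])
        have hlt : Subgroup.closure {t | t ∈ l} < Subgroup.closure {t | t ∈ g :: l} := by
          refine lt_of_le_of_ne (Subgroup.closure_mono ?_) ?_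
          · intro t ht
            exact List.mem_cons_of_mem _ ht
          · intro heq
            apply hg
            rw [heq]
            exact Subgroup.subset_closure (List.mem_cons_self)
        have h2 : 2 * Nat.card (Subgroup.closure {t | t ∈ l}) ≤
            Nat.card (Subgroup.closure {t | t ∈ g :: l}) := by
          obtain ⟨m, hm'⟩ := Subgroup.card_dvd_of_le hlt.le
          have hne : Nat.card (Subgroup.closure {t | t ∈ g :: l}) ≠
              Nat.card (Subgroup.closure {t | t ∈ l}) := by
            intro heq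
            exact hlt.ne (Subgroup.eq_of_le_of_card_ge hlt.le heq.le)
          have hpos' : 0 < Nat.card (Subgroup.closure {t | t ∈ g :: l}) := Nat.card_pos
          have hm2 : 2 ≤ m := by
            rcases m with _ | _ | m
            · rw [hm'] at hpos'
              simp at hpos'
            · rw [hm'] at hne
              simp at hne
            · omega
          rw [hm', mul_comm]
          exact Nat.mul_le_mul le_rfl hm2
        have hpos : 0 < Nat.card (Subgroup.closure {t | t ∈ l}) := Nat.card_pos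
        have hle : Nat.card (Subgroup.closure {t | t ∈ g :: l}) ≤ Nat.card T :=
          Subgroup.card_le_card_group _
        refine ih _ ?_ (g :: l) ?_ le_rfl
        · omega
        · rw [List.length_cons, pow_succ]
          omega
  exact key _ [] (by simp) le_rfl

lemma sq_le (e : ℕ) (he : 1 ≤ e) : (e + 1) * (e + 1) ≤ 4 * (2 ^ e - 1) := by
  have h : ∀ k : ℕ, (k + 2) * (k + 2) ≤ 4 * (2 ^ (k + 1) - 1) ∧ 2 * k + 5 ≤ 4 * 2 ^ (k + 1) := by
    intro k
    induction k with
    | zero => norm_num
    | succ k ih =>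
      obtain ⟨h1, h2⟩ := ih
      have h3 : 2 ^ (k + 1 + 1) = 2 * 2 ^ (k + 1) := by rw [pow_succ]; ring
      have h4 : 1 ≤ 2 ^ (k + 1) := Nat.one_le_two_pow
      constructor
      · rw [h3]
        have h5 : 4 * (2 * 2 ^ (k + 1) - 1) = 4 * (2 ^ (k + 1) - 1) + 4 * 2 ^ (k + 1) := by omega
        rw [h5]
        nlinarith
      · rw [h3]
        omega
  obtain ⟨k, rfl⟩ : ∃ k, e = k + 1 := ⟨e - 1, by omega⟩
  exact (h k).1

lemma pow_bound (a d : ℕ) (ha : 1 ≤ a) (hd : 2 ^ d ≤ a) : a ^ (d + 1) ≤ 16 ^ (a - 1) := by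
  by_cases h1 : a = 1
  · subst h1
    simp
  set e := Nat.log 2 a with he
  have hde : d ≤ e := Nat.le_log_of_pow_le (by norm_num) hd
  have hlt : a < 2 ^ (e + 1) := Nat.lt_pow_succ_log_self (by norm_num) a
  have hle : 2 ^ e ≤ a := Nat.pow_log_le_self 2 (by omega)
  have he1 : 1 ≤ e := by
    rw [he]
    exact Nat.log_pos (by norm_num) (by omega)
  calc a ^ (d + 1) ≤ a ^ (e + 1) := Nat.pow_le_pow_right ha (by omega)
    _ ≤ (2 ^ (e + 1)) ^ (e + 1) := Nat.pow_le_pow_left hlt.le _
    _ = 2 ^ ((e + 1) * (e + 1)) := by rw [← pow_mul]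
    _ ≤ 2 ^ (4 * (2 ^ e - 1)) := Nat.pow_le_pow_right (by norm_num) (sq_le e he1)
    _ = 16 ^ (2 ^ e - 1) := by rw [pow_mul]; norm_num
    _ ≤ 16 ^ (a - 1) := Nat.pow_le_pow_right (by norm_num) (by omega)

lemma Hol.card_le {ι : Type} [Finite ι] [Nonempty ι] {X T : Subgroup (Perm ι)} (h : Hol X T) :
    Nat.card X ≤ 16 ^ (Nat.card ι - 1) := by
  classical
  obtain ⟨a⟩ := ‹Nonempty ι›
  obtain ⟨l, hl, hlen⟩ := exists_gen T
  have hcT : Nat.card T = Nat.card ι := by
    apply Nat.card_congr
    refine Equiv.ofBijective (fun t : T => (t : Perm ι) a) ⟨?_, ?_⟩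
    · intro t u htu
      exact Subtype.ext (h.eq_of_eq t.2 u.2 htu)
    · intro b
      obtain ⟨t, ht, htb⟩ := h.trans a b
      exact ⟨⟨t, ht⟩, htb⟩
  rw [hcT] at hlen
  refine le_trans ?_ (pow_bound (Nat.card ι) l.length Nat.card_pos hlen)
  let f : X → (Fin (l.length + 1) → ι) := fun x =>
    Fin.cons ((x : Perm ι) a) (fun i => (x : Perm ι) ((l.get i : Perm ι) a))
  have hf : Function.Injective f := by
    intro x y hxy
    have h0 : (x : Perm ι) a = (y : Perm ι) a := by
      have := congrFun hxy 0
      simpa [f] using this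
    have h1 : ∀ t ∈ l, (x : Perm ι) ((t : Perm ι) a) = (y : Perm ι) ((t : Perm ι) a) := by
      intro t ht
      obtain ⟨i, rfl⟩ := List.get_of_mem ht
      have := congrFun hxy i.succ
      simpa [f] using this
    let z : Perm ι := (y : Perm ι)⁻¹ * (x : Perm ι)
    have hz : z ∈ X := X.mul_mem (X.inv_mem y.2) x.2
    have hza : z a = a := by
      simp only [z, Perm.mul_apply]
      rw [Perm.inv_eq_iff_eq, h0]
    have hzt : ∀ t ∈ l, z * (t : Perm ι) * z⁻¹ = t := by
      intro t ht
      apply h.conj_eq hz t.2 hza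
      simp only [z, Perm.mul_apply]
      rw [Perm.inv_eq_iff_eq, h1 t ht]
    let S : Subgroup T :=
      { carrier := {t | z * (t : Perm ι) * z⁻¹ = t}
        one_mem' := by simp
        mul_mem' := by
          intro t u ht hu
          simp only [Set.mem_ofPred_eq] at ht hu ⊢
          have : z * ((t : Perm ι) * (u : Perm ι)) * z⁻¹ =
            (z * (t : Perm ι) * z⁻¹) * (z * (u : Perm ι) * z⁻¹) := by group
          rw [Subgroup.coe_mul, this, ht, hu]
        inv_mem' := by
          intro t ht
          simp only [Set.mem_ofPred_eq] at ht ⊢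
          have : z * (t : Perm ι)⁻¹ * z⁻¹ = (z * (t : Perm ι) * z⁻¹)⁻¹ := by group
          rw [Subgroup.coe_inv, this, ht] }
    have hS : S = ⊤ := by
      rw [eq_top_iff, ← hl, Subgroup.closure_le]
      intro t ht
      exact hzt t ht
    have hz1 : z = 1 := by
      ext b
      obtain ⟨t, ht, rfl⟩ := h.trans a b
      have h2 : (⟨t, ht⟩ : T) ∈ S := by rw [hS]; trivial
      exact Hol.fixed_of_conj hza h2
    apply Subtype.ext
    have : (y : Perm ι)⁻¹ * (x : Perm ι) = 1 := hz1
    rw [inv_mul_eq_one] at this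
    exact this.symm
  have h3 := Nat.card_le_card_of_injective f hf
  rwa [Nat.card_fun, Nat.card_eq_fintype_card (α := Fin (l.length + 1)), Fintype.card_fin] at h3

end Pool.Agent.Q6.SI
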