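import Pool.Agent.Q6.SI.Est

set_option autoImplicit false
set_option maxHeartbeats 400000

namespace Pool.Agent.Q6.SI

open Equiv

variable {Ω : Type} [Fintype Ω] [DecidableEq Ω] (f g : Ω → ℕ)

lemma geom_le (m : ℕ) : ∑ s ∈ Finset.Icc 2 m, ((1 : ℝ) / 4) ^ s ≤ 1 / 12 := by
  have h : ∀ m : ℕ, ∑ s ∈ Finset.Icc 2 (m + 1), ((1 : ℝ) / 4) ^ s ≤
      1 / 12 - (1 / 3) * (1 / 4) ^ (m + 1) := by
    intro m
    induction m with
    | zero => norm_num
    | succ m ih =>
      rw [Finset.sum_Icc_succ_top (by omega)]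
      have : ((1 : ℝ) / 4) ^ (m + 1 + 1) = (1 / 4) ^ (m + 1) * (1 / 4) := pow_succ _ _
      rw [this]
      linarith
  rcases m with _ | m
  · norm_num
  · have := h m
    have h2 : (0 : ℝ) ≤ (1 / 3) * (1 / 4) ^ (m + 1) := by positivity
    linarith

open Classical in
/-- the packings carrying a nontrivial element of `H` to an element of `K` -/
noncomputable def badSet (H K : Subgroup (Perm Ω)) : Finset (Perm Ω) :=
  Finset.univ.filter (fun x => IsPack f g x ∧ ∃ h ∈ H, h ≠ 1 ∧ ∃ k ∈ K, x * h = k * x)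

theorem card_badSet (H K : Subgroup (Perm Ω)) (hH : Group.IsSolvable H)
    (hK : Group.IsSolvable K) [Fintype H] [Fintype K] (hn : 2 ^ 200 ≤ Fintype.card Ω)
    (hf : ∀ k, (Finset.univ.filter (fun a => f a = k)).card ≤ 7)
    (hg : ∀ k, (Finset.univ.filter (fun a => g a = k)).card ≤ 7)
    (hfH : ∀ t : ℝ, 0 ≤ t → t ≤ 1 → ∑ h : H, wt f t h ≤ (1 + t ^ 4) ^ (2 * Fintype.card Ω - 1))
    (hgK : ∀ t : ℝ, 0 ≤ t → t ≤ 1 → ∑ k : K, wt g t k ≤ (1 + t ^ 4) ^ (2 * Fintype.card Ω - 1)) :
    ((badSet f g H K).card : ℝ) ≤ 1 / 6 * (packs f g ∅ 1).card := by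
  classical
  set n := Fintype.card Ω with hndef
  have hbig : (1000 : ℕ) ≤ 2 ^ 200 := by norm_num
  have hn1000 : 1000 ≤ n := hbig.trans hn
  set q := n / 4 with hq
  set P : ℝ := ((packs f g ∅ 1).card : ℝ) with hP
  have hP0 : 0 ≤ P := Nat.cast_nonneg _
  let c : H × K → ℕ := fun p => (col f g (p.1 : Perm Ω) (p.2 : Perm Ω)).card
  let sz : H × K → ℕ := fun p => (p.1 : Perm Ω).support.card
  have hsub : badSet f g H K ⊆ (Finset.univ.filter (fun p : H × K => p.1 ≠ 1)).biUnion
      (fun p => col f g (p.1 : Perm Ω) (p.2 : Perm Ω)) := by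
    intro x hx
    simp only [badSet, Finset.mem_filter, Finset.mem_univ, true_and] at hx
    obtain ⟨hp, h, hh, hh1, k, hk, hxk⟩ := hx
    rw [Finset.mem_biUnion]
    refine ⟨(⟨h, hh⟩, ⟨k, hk⟩), ?_, ?_⟩
    · simp only [Finset.mem_filter, Finset.mem_univ, true_and]
      intro h2
      exact hh1 (congrArg Subtype.val h2)
    · rw [mem_col]
      exact ⟨hp, hxk⟩
  have h1 : (badSet f g H K).card ≤ ∑ p ∈ Finset.univ.filter (fun p : H × K => p.1 ≠ 1), c p :=
    (Finset.card_le_card hsub).trans Finset.card_biUnion_le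
  have h2 : ∑ p ∈ Finset.univ.filter (fun p : H × K => p.1 ≠ 1), c p ≤
      ∑ p ∈ Finset.univ.filter (fun p : H × K => sz p ∈ Finset.Icc 2 (3 * q)), c p +
      ∑ p ∈ Finset.univ.filter (fun p : H × K => 3 * q < sz p), c p := by
    rw [← Finset.sum_union]
    · apply Finset.sum_le_sum_of_subset
      intro p hp
      simp only [Finset.mem_filter, Finset.mem_univ, true_and] at hp
      simp only [Finset.mem_union, Finset.mem_filter, Finset.mem_univ, true_and, Finset.mem_Icc]
      have h3 : 2 ≤ sz p := by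
        have h4 : (p.1 : Perm Ω) ≠ 1 := fun h5 => hp (Subtype.ext h5)
        exact Perm.two_le_card_support_of_ne_one h4
      omega
    · rw [Finset.disjoint_left]
      intro p hp hp'
      simp only [Finset.mem_filter, Finset.mem_univ, true_and, Finset.mem_Icc] at hp hp'
      omega
  -- small supports
  have h3 : ((∑ p ∈ Finset.univ.filter (fun p : H × K => sz p ∈ Finset.Icc 2 (3 * q)), c p : ℕ) : ℝ)
      ≤ 1 / 12 * P := by
    have e1 : ∑ p ∈ Finset.univ.filter (fun p : H × K => sz p ∈ Finset.Icc 2 (3 * q)), c p =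
        ∑ s ∈ Finset.Icc 2 (3 * q), ∑ p ∈ (Finset.univ.filter
          (fun p : H × K => sz p ∈ Finset.Icc 2 (3 * q))).filter (fun p => sz p = s), c p := by
      rw [Finset.sum_fiberwise_of_maps_to]
      intro p hp
      simpa using hp
    rw [e1]
    push_cast
    have e2 : ∀ s ∈ Finset.Icc 2 (3 * q), (∑ p ∈ (Finset.univ.filter
          (fun p : H × K => sz p ∈ Finset.Icc 2 (3 * q))).filter (fun p => sz p = s), (c p : ℝ)) ≤
          (1 / 4) ^ s * P := by
      intro s hs
      rw [Finset.mem_Icc] at hs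
      obtain ⟨t, ht0, ht1, ht⟩ := small_ineq n s hn (by omega) (by omega)
      have e3 : (∑ p ∈ (Finset.univ.filter
          (fun p : H × K => sz p ∈ Finset.Icc 2 (3 * q))).filter (fun p => sz p = s), (c p : ℝ)) ≤
          ∑ p ∈ prs f g H K s, (c p : ℝ) := by
        apply le_of_eq
        symm
        apply Finset.sum_subset
        · intro p hp
          simp only [prs, Finset.mem_filter, Finset.mem_univ, true_and] at hp
          simp only [Finset.mem_filter, Finset.mem_univ, true_and, Finset.mem_Icc, sz]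
          refine ⟨?_, hp.1⟩
          rw [hp.1]
          exact hs
        · intro p hp hnp
          simp only [Finset.mem_filter, Finset.mem_univ, true_and] at hp
          simp only [prs, Finset.mem_filter, Finset.mem_univ, true_and, not_and] at hnp
          have h5 := hnp hp.2
          rw [Finset.not_nonempty_iff_eq_empty] at h5
          simp [c, h5]
      refine e3.trans ?_
      by_cases hne : (prs f g H K s).Nonempty
      swap
      · rw [Finset.not_nonempty_iff_eq_empty] at hne
        rw [hne, Finset.sum_empty]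
        positivity
      obtain ⟨p₀, hp₀, hmax⟩ := Finset.exists_max_image (prs f g H K s) (fun p => (c p : ℝ)) hne
      have e4 : ∑ p ∈ prs f g H K s, (c p : ℝ) ≤ (prs f g H K s).card * (c p₀ : ℝ) := by
        rw [← nsmul_eq_mul]
        exact Finset.sum_le_card_nsmul _ _ _ hmax
      refine e4.trans (ht (c p₀) _ P (Nat.cast_nonneg _) (Nat.cast_nonneg _) hP0 ?_ ?_)
      · exact card_prs f g H K s (2 * n - 1) t ht0 ht1 (hfH t ht0.le ht1) (hgK t ht0.le ht1)
      · have hp1 : (p₀.1 : Perm Ω).support.card = s := by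
          simp only [prs, Finset.mem_filter, Finset.mem_univ, true_and] at hp₀
          exact hp₀.1
        have h5 := card_col f g hf hg (p₀.1 : Perm Ω) (p₀.2 : Perm Ω) (n / 8) s hp1.ge (by
          rw [← hndef]
          omega)
        rw [hp1] at h5
        have h6 : ((col f g (p₀.1 : Perm Ω) (p₀.2 : Perm Ω)).card : ℝ) * ((n / 8 : ℕ) : ℝ) ^ s ≤
            (s : ℝ) ^ (s / 2) * ((packs f g ∅ 1).card : ℝ) := by exact_mod_cast h5
        exact h6
    calc ∑ s ∈ Finset.Icc 2 (3 * q), (∑ p ∈ (Finset.univ.filter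
          (fun p : H × K => sz p ∈ Finset.Icc 2 (3 * q))).filter (fun p => sz p = s), (c p : ℝ))
        ≤ ∑ s ∈ Finset.Icc 2 (3 * q), ((1 : ℝ) / 4) ^ s * P := Finset.sum_le_sum e2
      _ = (∑ s ∈ Finset.Icc 2 (3 * q), ((1 : ℝ) / 4) ^ s) * P := by rw [Finset.sum_mul]
      _ ≤ 1 / 12 * P := mul_le_mul_of_nonneg_right (geom_le _) hP0
  -- large supports
  have h4 : ((∑ p ∈ Finset.univ.filter (fun p : H × K => 3 * q < sz p), c p : ℕ) : ℝ)
      ≤ 1 / 12 * P := by
    have hcH : Nat.card H ≤ 16 ^ n := by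
      refine (card_le n Ω hndef.symm (by omega) H hH).trans ?_
      exact Nat.pow_le_pow_right (by norm_num) (by omega)
    have hcK : Nat.card K ≤ 16 ^ n := by
      refine (card_le n Ω hndef.symm (by omega) K hK).trans ?_
      exact Nat.pow_le_pow_right (by norm_num) (by omega)
    have hcard : (Finset.univ.filter (fun p : H × K => 3 * q < sz p)).card ≤ 256 ^ n := by
      refine (Finset.card_le_univ _).trans ?_
      rw [Fintype.card_prod, ← Nat.card_eq_fintype_card, ← Nat.card_eq_fintype_card]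
      calc Nat.card H * Nat.card K ≤ 16 ^ n * 16 ^ n := Nat.mul_le_mul hcH hcK
        _ = 256 ^ n := by rw [← mul_pow]; norm_num
    have hc : ∀ p ∈ Finset.univ.filter (fun p : H × K => 3 * q < sz p),
        c p * (n / 8) ^ (3 * q) ≤ n ^ (n / 2) * (packs f g ∅ 1).card := by
      intro p hp
      simp only [Finset.mem_filter, Finset.mem_univ, true_and] at hp
      have h5 := card_col f g hf hg (p.1 : Perm Ω) (p.2 : Perm Ω) (n / 8) (3 * q) hp.le (by
        rw [← hndef]
        omega)
      refine h5.trans (Nat.mul_le_mul ?_ le_rfl)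
      have h6 : sz p ≤ n := Finset.card_le_univ _
      calc sz p ^ (sz p / 2) ≤ n ^ (sz p / 2) := Nat.pow_le_pow_left h6 _
        _ ≤ n ^ (n / 2) := Nat.pow_le_pow_right (by omega) (Nat.div_le_div_right h6)
    have h5 : (∑ p ∈ Finset.univ.filter (fun p : H × K => 3 * q < sz p), c p) * (n / 8) ^ (3 * q)
        ≤ 256 ^ n * (n ^ (n / 2) * (packs f g ∅ 1).card) := by
      rw [Finset.sum_mul]
      refine (Finset.sum_le_card_nsmul _ _ _ hc).trans ?_
      rw [smul_eq_mul]
      exact Nat.mul_le_mul hcard le_rfl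
    have h6 := large_ineq n hn
    have h7 : 12 * (∑ p ∈ Finset.univ.filter (fun p : H × K => 3 * q < sz p), c p) ≤
        (packs f g ∅ 1).card := by
      have hpos : 0 < (n / 8) ^ (3 * q) := by
        apply Nat.pow_pos
        omega
      apply Nat.le_of_mul_le_mul_right _ hpos
      calc 12 * (∑ p ∈ Finset.univ.filter (fun p : H × K => 3 * q < sz p), c p) *
            (n / 8) ^ (3 * q)
          = 12 * ((∑ p ∈ Finset.univ.filter (fun p : H × K => 3 * q < sz p), c p) *
            (n / 8) ^ (3 * q)) := by ring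
        _ ≤ 12 * (256 ^ n * (n ^ (n / 2) * (packs f g ∅ 1).card)) := Nat.mul_le_mul le_rfl h5
        _ = (12 * 256 ^ n * n ^ (n / 2)) * (packs f g ∅ 1).card := by ring
        _ ≤ (n / 8) ^ (3 * q) * (packs f g ∅ 1).card := Nat.mul_le_mul h6 le_rfl
        _ = _ := by ring
    have h8 : (12 : ℝ) * ((∑ p ∈ Finset.univ.filter (fun p : H × K => 3 * q < sz p), c p : ℕ) : ℝ)
        ≤ P := by rw [hP]; exact_mod_cast h7
    linarith
  have h5 : ((badSet f g H K).card : ℝ) ≤
      ((∑ p ∈ Finset.univ.filter (fun p : H × K => sz p ∈ Finset.Icc 2 (3 * q)), c p : ℕ) : ℝ) +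
      ((∑ p ∈ Finset.univ.filter (fun p : H × K => 3 * q < sz p), c p : ℕ) : ℝ) := by
    exact_mod_cast h1.trans h2
  linarith

/-- half of the packings are even -/
lemma even_packs (hn : 2 ≤ Fintype.card Ω) (A : Finset (Perm Ω))
    (hA : ∀ x, IsPack f g x → Perm.sign x = 1 → x ∈ A) :
    (packs f g ∅ 1).card ≤ 2 * A.card := by
  classical
  obtain ⟨a, b, hab, hswap⟩ : ∃ a b : Ω, a ≠ b ∧ ∀ x, IsPack f g x → IsPack f g (x * swap a b) := by
    by_cases hinj : Function.Injective f
    · obtain ⟨a, b, hab⟩ := Fintype.exists_pair_of_one_lt_card (α := Ω) (by omega)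
      refine ⟨a, b, hab, ?_⟩
      intro x _ c d hcd hfcd
      exact absurd (hinj hfcd) hcd
    · rw [Function.Injective] at hinj
      push Not at hinj
      obtain ⟨a, b, hfab, hab⟩ := hinj
      refine ⟨a, b, hab, ?_⟩
      intro x hx c d hcd hfcd
      have hf : ∀ c, f (swap a b c) = f c := by
        intro c
        by_cases h1 : c = a
        · rw [h1, swap_apply_left, hfab]
        · by_cases h2 : c = b
          · rw [h2, swap_apply_right, hfab]
          · rw [swap_apply_of_ne_of_ne h1 h2]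
      rw [Perm.mul_apply, Perm.mul_apply]
      apply hx
      · intro h3
        exact hcd ((swap a b).injective h3)
      · rw [hf, hf, hfcd]
  have h1 : packs f g ∅ 1 ⊆ A ∪ A.image (fun x => x * swap a b) := by
    intro x hx
    rw [mem_packs] at hx
    rw [Finset.mem_union, Finset.mem_image]
    rcases Int.units_eq_one_or (Perm.sign x) with h2 | h2
    · exact Or.inl (hA x hx.1 h2)
    · right
      refine ⟨x * swap a b, hA _ (hswap x hx.1) ?_, ?_⟩
      · rw [Perm.sign_mul, h2, Perm.sign_swap hab]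
        decide
      · rw [mul_assoc, swap_mul_self, mul_one]
  have h2 := Finset.card_le_card h1
  have h3 := Finset.card_union_le A (A.image (fun x => x * swap a b))
  have h4 : (A.image (fun x => x * swap a b)).card ≤ A.card := Finset.card_image_le
  omega

theorem exists_good (Ω : Type) [Fintype Ω] [DecidableEq Ω] (hn : 2 ^ 200 ≤ Fintype.card Ω)
    (H K : Subgroup (Perm Ω)) (hH : Group.IsSolvable H) (hK : Group.IsSolvable K) :
    ∃ x : Perm Ω, Perm.sign x = 1 ∧ ∀ h ∈ H, x * h * x⁻¹ ∈ K → h = 1 := by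
  classical
  have hbig : (1000 : ℕ) ≤ 2 ^ 200 := by norm_num
  have hn1000 : 1000 ≤ Fintype.card Ω := hbig.trans hn
  obtain ⟨f, hf, hfH⟩ := exists_parts _ Ω rfl (by omega) H hH
  obtain ⟨g, hg, hgK⟩ := exists_parts _ Ω rfl (by omega) K hK
  by_contra hcon
  push Not at hcon
  have h1 := card_badSet f g H K hH hK hn hf hg hfH hgK
  have h2 := even_packs f g (by omega) (badSet f g H K) (by
    intro x hx hs
    obtain ⟨h, hh, hk, h1⟩ := hcon x hs
    simp only [badSet, Finset.mem_filter, Finset.mem_univ, true_and]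
    exact ⟨hx, h, hh, h1, _, hk, by group⟩)
  obtain ⟨x₀, hx₀⟩ := exists_pack f g hf hg (by omega)
  have h3 : 0 < (packs f g ∅ 1).card := by
    apply Finset.card_pos.mpr
    exact ⟨x₀, by rw [mem_packs]; exact ⟨hx₀, by simp⟩⟩
  have h4 : ((packs f g ∅ 1).card : ℝ) ≤ 2 * (badSet f g H K).card := by exact_mod_cast h2
  have h5 : (0 : ℝ) < (packs f g ∅ 1).card := by exact_mod_cast h3
  linarith

end Pool.Agent.Q6.SI
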