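import Pool.Agent.Q6.SI.Card

set_option autoImplicit false
set_option maxHeartbeats 400000

namespace Pool.Agent.Q6.SI

open Equiv

/-- the weight of a permutation: `t/256` for each moved point which leaves its part, `t²/256` for
each moved point which does not -/
noncomputable def wt {Ω : Type} [Fintype Ω] [DecidableEq Ω] (f : Ω → ℕ) (t : ℝ) (h : Perm Ω) : ℝ :=
  ∏ a, (if h a = a then 1 else if f (h a) = f a then t ^ 2 / 256 else t / 256)

variable {Ω : Type} [Fintype Ω] [DecidableEq Ω]

lemma wt_factor_nonneg {t : ℝ} (ht : 0 ≤ t) (p q : Prop) [Decidable p] [Decidable q] :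
    0 ≤ (if p then (1 : ℝ) else if q then t ^ 2 / 256 else t / 256) := by
  split_ifs <;> positivity

lemma wt_factor_le {t : ℝ} (ht : 0 ≤ t) (ht1 : t ≤ 1) (p q : Prop) [Decidable p] [Decidable q] :
    (if p then (1 : ℝ) else if q then t ^ 2 / 256 else t / 256) ≤ 1 := by
  split_ifs
  · exact le_rfl
  · nlinarith
  · linarith

lemma wt_nonneg (f : Ω → ℕ) {t : ℝ} (ht : 0 ≤ t) (h : Perm Ω) : 0 ≤ wt f t h :=
  Finset.prod_nonneg (fun _ _ => wt_factor_nonneg ht _ _)

lemma wt_one (f : Ω → ℕ) (t : ℝ) : wt f t 1 = 1 := by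
  simp [wt]

/-- elements of a set give small factors -/
lemma wt_le_of_subset (f : Ω → ℕ) {t : ℝ} (ht : 0 ≤ t) (ht1 : t ≤ 1) (h : Perm Ω)
    (s : Finset Ω) (w : ℝ) (hs : ∀ a ∈ s, (if h a = a then (1 : ℝ) else
      if f (h a) = f a then t ^ 2 / 256 else t / 256) ≤ w) :
    wt f t h ≤ w ^ s.card := by
  unfold wt
  rw [← Finset.prod_sdiff (Finset.subset_univ s)]
  have h1 : ∏ a ∈ Finset.univ \ s, (if h a = a then (1 : ℝ) else
      if f (h a) = f a then t ^ 2 / 256 else t / 256) ≤ 1 :=
    Finset.prod_le_one (fun _ _ => wt_factor_nonneg ht _ _) (fun _ _ => wt_factor_le ht ht1 _ _)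
  have h2 : ∏ a ∈ s, (if h a = a then (1 : ℝ) else
      if f (h a) = f a then t ^ 2 / 256 else t / 256) ≤ w ^ s.card := by
    rw [← Finset.prod_const]
    exact Finset.prod_le_prod (fun _ _ => wt_factor_nonneg ht _ _) hs
  have h3 : 0 ≤ ∏ a ∈ s, (if h a = a then (1 : ℝ) else
      if f (h a) = f a then t ^ 2 / 256 else t / 256) :=
    Finset.prod_nonneg (fun _ _ => wt_factor_nonneg ht _ _)
  calc _ ≤ 1 * w ^ s.card := mul_le_mul h1 h2 h3 zero_le_one
    _ = w ^ s.card := one_mul _

/-- a nontrivial permutation moves two points -/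
lemma wt_small {t : ℝ} (ht : 0 ≤ t) (ht1 : t ≤ 1) (h : Perm Ω) (hh : h ≠ 1) :
    wt (fun _ => 0) t h ≤ t ^ 4 / 65536 := by
  obtain ⟨a, ha⟩ : ∃ a, h a ≠ a := by
    by_contra hcon
    push Not at hcon
    exact hh (Equiv.ext hcon)
  have h2 : h (h a) ≠ h a := fun h3 => ha (h.injective h3)
  have h3 := wt_le_of_subset (fun _ => 0) ht ht1 h {a, h a} (t ^ 2 / 256) (by
    intro b hb
    simp only [Finset.mem_insert, Finset.mem_singleton] at hb
    rcases hb with rfl | rfl
    · simp [ha]
    · simp [h2])
  rw [Finset.card_pair (Ne.symm ha)] at h3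
  refine h3.trans (le_of_eq ?_)
  ring

/-- glueing colourings of fibres -/
lemma exists_glue {ι : Type} [Fintype ι] [DecidableEq ι] (π : Ω → ι)
    (M : Subgroup (Perm Ω)) [Fintype M] (hM : ∀ m ∈ M, ∀ a, π (m a) = π a)
    [∀ c, Fintype (rng π M hM c)] (e : ι → ℕ)
    (hf : ∀ c, ∃ f : {a // π a = c} → ℕ, (∀ k, (Finset.univ.filter (fun a => f a = k)).card ≤ 7) ∧
      ∀ t : ℝ, 0 ≤ t → t ≤ 1 → ∑ g : rng π M hM c, wt f t g ≤ (1 + t ^ 4) ^ (e c)) :
    ∃ f : Ω → ℕ, (∀ k, (Finset.univ.filter (fun a => f a = k)).card ≤ 7) ∧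
      (∀ a b, f a = f b → π a = π b) ∧
      ∀ t : ℝ, 0 ≤ t → t ≤ 1 → ∑ g : M, wt f t g ≤ (1 + t ^ 4) ^ (∑ c, e c) := by
  classical
  choose F hF7 hF using hf
  let idx : ι ≃ Fin (Fintype.card ι) := Fintype.equivFin ι
  let f : Ω → ℕ := fun a => Nat.pair (idx (π a)) (F (π a) ⟨a, rfl⟩)
  have hfπ : ∀ a b, f a = f b → π a = π b := by
    intro a b hab
    simp only [f, Nat.pair_eq_pair] at hab
    exact idx.injective (Fin.ext hab.1)
  have hfF : ∀ (c : ι) (x y : {a // π a = c}), f x = f y ↔ F c x = F c y := by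
    rintro c ⟨x, hx⟩ ⟨y, hy⟩
    subst hx
    have key : ∀ (d : ι) (hd : d = π x) (hy' : π y = d),
        F d ⟨y, hy'⟩ = F (π x) ⟨y, hy⟩ := by
      rintro d rfl hy'
      rfl
    simp only [f, Nat.pair_eq_pair]
    rw [key (π y) hy rfl, hy]
    simp
  refine ⟨f, ?_, hfπ, ?_⟩
  · intro k
    by_cases hk : ∃ a, f a = k
    · obtain ⟨a, rfl⟩ := hk
      refine le_trans ?_ (hF7 (π a) (F (π a) ⟨a, rfl⟩))
      have hsub : (Finset.univ.filter (fun b => f b = f a)) ⊆
          Finset.image Subtype.val
            (Finset.univ.filter (fun b : {b // π b = π a} => F (π a) b = F (π a) ⟨a, rfl⟩)) := by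
        intro b hb
        simp only [Finset.mem_filter, Finset.mem_univ, true_and] at hb
        rw [Finset.mem_image]
        refine ⟨⟨b, hfπ b a hb⟩, ?_, rfl⟩
        simp only [Finset.mem_filter, Finset.mem_univ, true_and]
        exact (hfF (π a) ⟨b, hfπ b a hb⟩ ⟨a, rfl⟩).mp hb
      exact (Finset.card_le_card hsub).trans Finset.card_image_le
    · push Not at hk
      have : Finset.univ.filter (fun a => f a = k) = ∅ := by
        ext a
        simp [hk a]
      rw [this]
      simp
  · intro t ht ht1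
    have h1 := sum_le_prod π M hM (wt f t) (fun c => wt (F c) t) (fun c g => wt_nonneg _ ht g) (by
      intro m
      unfold wt
      rw [← Equiv.prod_comp (Equiv.sigmaFiberEquiv π), Fintype.prod_sigma]
      refine Finset.prod_congr rfl (fun c _ => Finset.prod_congr rfl (fun x _ => ?_))
      have e1 : ((m : Perm Ω) x = x) ↔ (res π M hM c m x = x) := by
        rw [Subtype.ext_iff, res_apply]
      have e2 : (f ((m : Perm Ω) x) = f x) ↔ (F c (res π M hM c m x) = F c x) := by
        rw [← hfF, res_apply]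
      simp only [Equiv.sigmaFiberEquiv_apply, e1, e2])
    refine h1.trans ?_
    rw [← Finset.prod_pow_eq_pow_sum]
    apply Finset.prod_le_prod
    · intro c _
      exact Finset.sum_nonneg (fun g _ => wt_nonneg _ ht _)
    · intro c _
      exact hF c t ht ht1

omit [DecidableEq Ω] in
lemma sum_fib_two {ι : Type} [Fintype ι] [DecidableEq ι] (π : Ω → ι)
    (hπ : Function.Surjective π) :
    ∑ c, (2 * Fintype.card {a // π a = c} - 1) + Fintype.card ι = 2 * Fintype.card Ω := by
  rw [← sum_fib π, Finset.mul_sum]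
  have : Fintype.card ι = ∑ _c : ι, 1 := by simp
  rw [this, ← Finset.sum_add_distrib]
  refine Finset.sum_congr rfl (fun c _ => ?_)
  have := fib_pos π hπ c
  omega

omit [Fintype Ω] [DecidableEq Ω] in
lemma sum_transfer (H M : Subgroup (Perm Ω)) [Fintype H] [Fintype M] (hMH : M ≤ H)
    (F : Perm Ω → ℝ) (B : ℝ) (hB : ∀ h ∈ H, h ∉ M → F h ≤ B) (hB0 : 0 ≤ B) :
    ∑ g : H, F g ≤ ∑ g : M, F g + Nat.card H * B := by
  classical
  have h1 : ∑ g : H, F g = ∑ g : H, (if (g : Perm Ω) ∈ M then F g else 0) +
      ∑ g : H, (if (g : Perm Ω) ∈ M then 0 else F g) := by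
    rw [← Finset.sum_add_distrib]
    refine Finset.sum_congr rfl (fun g _ => ?_)
    split_ifs <;> simp
  rw [h1]
  apply add_le_add
  · rw [← Finset.sum_filter]
    apply le_of_eq
    refine Finset.sum_bij' (i := fun g hg => (⟨(g : Perm Ω), (Finset.mem_filter.mp hg).2⟩ : M))
      (j := fun g _ => (⟨(g : Perm Ω), hMH g.2⟩ : H)) ?_ ?_ ?_ ?_ ?_
    · intro g hg
      exact Finset.mem_univ _
    · intro g _
      exact Finset.mem_filter.mpr ⟨Finset.mem_univ _, g.2⟩
    · intro g hg
      rfl
    · intro g hg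
      rfl
    · intro g hg
      rfl
  · calc ∑ g : H, (if (g : Perm Ω) ∈ M then 0 else F g) ≤ ∑ _g : H, B := by
          apply Finset.sum_le_sum
          intro g _
          split_ifs with hg
          · exact hB0
          · exact hB g g.2 hg
      _ = Nat.card H * B := by
          rw [Finset.sum_const, nsmul_eq_mul, Finset.card_univ, Nat.card_eq_fintype_card]

/-- the main counting statement for solvable groups -/
theorem exists_parts (n : ℕ) : ∀ (Ω : Type) [Fintype Ω] [DecidableEq Ω], Fintype.card Ω = n →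
    1 ≤ n → ∀ H : Subgroup (Perm Ω), Group.IsSolvable H → ∀ [Fintype H],
    ∃ f : Ω → ℕ, (∀ k, (Finset.univ.filter (fun a => f a = k)).card ≤ 7) ∧
      ∀ t : ℝ, 0 ≤ t → t ≤ 1 → ∑ g : H, wt f t g ≤ (1 + t ^ 4) ^ (2 * n - 1) := by
  classical
  induction n using Nat.strong_induction_on with
  | _ n ih =>
    intro Ω _ _ hn h1 H hH _
    by_cases h7 : n ≤ 7
    · refine ⟨fun _ => 0, ?_, ?_⟩
      · intro k
        refine (Finset.card_le_univ _).trans ?_
        omega
      · intro t ht ht1
        have h2 := sum_transfer H ⊥ bot_le (wt (fun _ => 0) t) (t ^ 4 / 65536)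
          (fun h _ hh => wt_small ht ht1 h (by simpa using hh)) (by positivity)
        have h3 : ∑ g : (⊥ : Subgroup (Perm Ω)), wt (fun _ => 0) t (g : Perm Ω) = 1 := by
          rw [Fintype.sum_unique]
          exact wt_one _ _
        rw [h3] at h2
        have h4 : (Nat.card H : ℝ) ≤ 5040 := by
          have h5 : Nat.card H ≤ Nat.card (Perm Ω) := Subgroup.card_le_card_group H
          rw [Nat.card_eq_fintype_card (α := Perm Ω), Fintype.card_perm, hn] at h5
          have h6 : n.factorial ≤ Nat.factorial 7 := Nat.factorial_le h7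
          have h8 : Nat.factorial 7 = 5040 := by decide
          rw [h8] at h6
          exact_mod_cast h5.trans h6
        have h5 : (0 : ℝ) ≤ t ^ 4 := by positivity
        have h6 : ∑ g : H, wt (fun _ => 0) t (g : Perm Ω) ≤ 1 + t ^ 4 := by
          refine h2.trans ?_
          nlinarith
        refine h6.trans ?_
        have h8 : (1 + t ^ 4) ^ 1 ≤ (1 + t ^ 4) ^ (2 * n - 1) :=
          pow_le_pow_right₀ (by linarith) (by omega)
        simpa using h8
    · have hne : ∃ a b : Ω, a ≠ b := by
        have : 1 < Fintype.card Ω := by omega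
        exact Fintype.exists_pair_of_one_lt_card this
      by_cases ht : ∀ a b : Ω, ∃ h ∈ H, h a = b
      · obtain ⟨r, ⟨a, b, hab⟩, -, hmov, -⟩ := structure_lemma H hne ht
        have hM : ∀ m ∈ ker H r, ∀ a, Quotient.mk r (m a) = Quotient.mk r a :=
          fun m hm a => (mk_eq r _ _).mpr (hm.2 a)
        have hMs : Group.IsSolvable (ker H r) := solvable_of_le (ker_le H r) hH
        obtain ⟨f, hf7, hfπ, hf⟩ := exists_glue (Quotient.mk r) (ker H r) hM
          (fun c => 2 * Fintype.card {a // Quotient.mk r a = c} - 1) (fun c => by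
            refine ih _ ?_ _ rfl (fib_pos _ Quotient.mk_surjective c) _
              (rng_solvable (Quotient.mk r) (ker H r) hM c)
            rw [← hn]
            exact fib_lt (Quotient.mk r) c (fun h => hab ((mk_eq r a b).mp h)))
        refine ⟨f, hf7, ?_⟩
        intro t ht0 ht1
        have h4 := hf t ht0 ht1
        have hk : 2 ≤ Fintype.card (Quotient r) := by
          have : 1 < Fintype.card (Quotient r) :=
            Fintype.one_lt_card_iff.mpr ⟨Quotient.mk r a, Quotient.mk r b,
              fun h => hab ((mk_eq r a b).mp h)⟩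
          omega
        have hsum := sum_fib_two (Quotient.mk r) Quotient.mk_surjective
        have h5 := sum_transfer H (ker H r) (ker_le H r) (wt f t) (t ^ 4 / 16 ^ n) (by
          intro h hh hnk
          rcases hmov h hh with h6 | h6
          · exact absurd ⟨hh, h6⟩ hnk
          · have h7 := h6 (Finset.univ.filter (fun a => ¬ r (h a) a)) (fun a ha => by simp [ha])
            set sc := (Finset.univ.filter (fun a => ¬ r (h a) a)).card with hsc
            have h8 : wt f t h ≤ (t / 256) ^ sc := by
              apply wt_le_of_subset f ht0 ht1 h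
              intro a ha
              simp only [Finset.mem_filter, Finset.mem_univ, true_and] at ha
              have h9 : h a ≠ a := fun h10 => ha (by rw [h10])
              have h10 : f (h a) ≠ f a := fun h11 => ha ((mk_eq r _ _).mp (hfπ _ _ h11))
              simp [h9, h10]
            refine h8.trans ?_
            have h9 : (256 : ℝ) ^ sc = 16 ^ (2 * sc) := by
              rw [pow_mul]; norm_num
            rw [div_pow, h9]
            apply div_le_div₀ (by positivity) _ (by positivity) _
            · exact pow_le_pow_of_le_one ht0 ht1 (by omega)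
            · exact pow_le_pow_right₀ (by norm_num) (by omega)) (by positivity)
        refine h5.trans ?_
        have h6 : (Nat.card H : ℝ) * (t ^ 4 / 16 ^ n) ≤ t ^ 4 := by
          have h7 := card_le n Ω hn h1 H hH
          have h8 : (Nat.card H : ℝ) ≤ 16 ^ n := by
            have : (16 : ℕ) ^ (n - 1) ≤ 16 ^ n := Nat.pow_le_pow_right (by norm_num) (by omega)
            exact_mod_cast h7.trans this
          have h9 : (0 : ℝ) < 16 ^ n := by positivity
          rw [mul_div_assoc', div_le_iff₀ h9, mul_comm]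
          exact mul_le_mul_of_nonneg_left h8 (by positivity)
        have h7 : (1 + t ^ 4) ^ (∑ c : Quotient r, (2 * Fintype.card {a // Quotient.mk r a = c} - 1))
            ≤ (1 + t ^ 4) ^ (2 * n - 2) := by
          apply pow_le_pow_right₀
          · have : (0 : ℝ) ≤ t ^ 4 := by positivity
            linarith
          · omega
        have h8 : (1 : ℝ) ≤ (1 + t ^ 4) ^ (2 * n - 2) := by
          apply one_le_pow₀
          have : (0 : ℝ) ≤ t ^ 4 := by positivity
          linarith
        have h9 : (1 + t ^ 4) ^ (2 * n - 1) = (1 + t ^ 4) ^ (2 * n - 2) * (1 + t ^ 4) := by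
          rw [← pow_succ]
          congr 1
          omega
        rw [h9]
        have h10 : (0 : ℝ) ≤ t ^ 4 := by positivity
        nlinarith
      · push Not at ht
        obtain ⟨a, b, hab⟩ := ht
        have hab' : ¬ (orb H) a b := fun ⟨h, hh, hhab⟩ => hab h hh hhab
        have hM : ∀ m ∈ H, ∀ a, Quotient.mk (orb H) (m a) = Quotient.mk (orb H) a :=
          fun m hm a => (mk_eq _ _ _).mpr ⟨m⁻¹, H.inv_mem hm, by simp⟩
        obtain ⟨f, hf7, -, hf⟩ := exists_glue (Quotient.mk (orb H)) H hM
          (fun c => 2 * Fintype.card {a // Quotient.mk (orb H) a = c} - 1) (fun c => by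
            refine ih _ ?_ _ rfl (fib_pos _ Quotient.mk_surjective c) _
              (rng_solvable (Quotient.mk (orb H)) H hM c)
            rw [← hn]
            exact fib_lt (Quotient.mk (orb H)) c (fun h => hab' ((mk_eq _ a b).mp h)))
        refine ⟨f, hf7, ?_⟩
        intro t ht0 ht1
        have h4 := hf t ht0 ht1
        refine h4.trans ?_
        have hk : 1 ≤ Fintype.card (Quotient (orb H)) :=
          Fintype.card_pos_iff.mpr ⟨Quotient.mk (orb H) a⟩
        have hsum := sum_fib_two (Quotient.mk (orb H)) Quotient.mk_surjective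
        apply pow_le_pow_right₀
        · have : (0 : ℝ) ≤ t ^ 4 := by positivity
          linarith
        · omega

end Pool.Agent.Q6.SI
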