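import Pool.Agent.Q6.SI.Col
import Pool.Agent.Q6.SI.Wt

set_option autoImplicit false
set_option maxHeartbeats 400000

namespace Pool.Agent.Q6.SI

open Equiv

variable {Ω : Type} [Fintype Ω] [DecidableEq Ω] (f g : Ω → ℕ)

/-- the moved points which stay in their part -/
def near (f : Ω → ℕ) (h : Perm Ω) : Finset Ω := h.support.filter (fun a => f (h a) = f a)

lemma wt_eq (t : ℝ) (h : Perm Ω) :
    wt f t h = t ^ (h.support.card + (near f h).card) / 256 ^ h.support.card := by
  unfold wt
  rw [← Finset.prod_subset (Finset.subset_univ h.support)]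
  · rw [← Finset.prod_filter_mul_prod_filter_not h.support (fun a => f (h a) = f a)]
    have h1 : ∏ a ∈ h.support.filter (fun a => f (h a) = f a), (if h a = a then (1 : ℝ) else
        if f (h a) = f a then t ^ 2 / 256 else t / 256) = (t ^ 2 / 256) ^ (near f h).card := by
      rw [near, ← Finset.prod_const]
      refine Finset.prod_congr rfl (fun a ha => ?_)
      rw [Finset.mem_filter, Perm.mem_support] at ha
      rw [if_neg ha.1, if_pos ha.2]
    have h2 : ∏ a ∈ h.support.filter (fun a => ¬ f (h a) = f a), (if h a = a then (1 : ℝ) else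
        if f (h a) = f a then t ^ 2 / 256 else t / 256) =
        (t / 256) ^ (h.support.filter (fun a => ¬ f (h a) = f a)).card := by
      rw [← Finset.prod_const]
      refine Finset.prod_congr rfl (fun a ha => ?_)
      rw [Finset.mem_filter, Perm.mem_support] at ha
      rw [if_neg ha.1, if_neg ha.2]
    have h3 : (near f h).card + (h.support.filter (fun a => ¬ f (h a) = f a)).card =
        h.support.card := by
      rw [near]
      exact Finset.card_filter_add_card_filter_not (fun a => f (h a) = f a)
    rw [h1, h2]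
    rw [← h3, div_pow, div_pow, ← pow_mul]
    rw [div_mul_div_comm, ← pow_add, ← pow_add]
    congr 2
    ring
  · intro a _ ha
    rw [Perm.mem_support, not_not] at ha
    rw [if_pos ha]

lemma near_le {h k x : Perm Ω} (hx : x ∈ col f g h k) :
    k.support.card = h.support.card ∧ (near f h).card + (near g k).card ≤ h.support.card := by
  rw [mem_col] at hx
  obtain ⟨hp, hx⟩ := hx
  have hk : k = x * h * x⁻¹ := by rw [hx]; group
  have h1 : k.support.card = h.support.card := by
    rw [hk, Perm.card_support_conj]
  refine ⟨h1, ?_⟩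
  have hxa : ∀ a, k (x a) = x (h a) := by
    intro a
    have := congrArg (fun y : Perm Ω => y a) hx
    simpa only [Perm.mul_apply] using this.symm
  have h2 : (near f h).card ≤ (k.support.filter (fun a => ¬ g (k a) = g a)).card := by
    apply Finset.card_le_card_of_injOn (fun a => x a)
    · intro a ha
      simp only [near, Finset.coe_filter, Perm.mem_support, Set.mem_ofPred_eq] at ha
      simp only [Finset.coe_filter, Perm.mem_support, Set.mem_ofPred_eq]
      rw [hxa]
      exact ⟨fun h3 => ha.1 (x.injective h3), hp _ _ ha.1 ha.2⟩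
    · intro a _ b _ hab
      exact x.injective hab
  have h3 : (near g k).card + (k.support.filter (fun a => ¬ g (k a) = g a)).card =
      k.support.card := by
    rw [near]
    exact Finset.card_filter_add_card_filter_not (fun a => g (k a) = g a)
  omega

variable (H K : Subgroup (Perm Ω)) [Fintype H] [Fintype K]

open Classical in
/-- the pairs with support of size `s` which are carried to each other by a packing -/
noncomputable def prs (s : ℕ) : Finset (H × K) :=
  Finset.univ.filter (fun p => (p.1 : Perm Ω).support.card = s ∧ (col f g p.1 p.2).Nonempty)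

lemma card_prs (s : ℕ) (e : ℕ) (t : ℝ) (ht : 0 < t) (ht1 : t ≤ 1)
    (hH : ∑ h : H, wt f t h ≤ (1 + t ^ 4) ^ e) (hK : ∑ k : K, wt g t k ≤ (1 + t ^ 4) ^ e) :
    ((prs f g H K s).card : ℝ) * t ^ (3 * s) ≤ 65536 ^ s * (1 + t ^ 4) ^ (2 * e) := by
  classical
  have h1 : ∀ p ∈ prs f g H K s, t ^ (3 * s) / 65536 ^ s ≤
      wt f t (p.1 : Perm Ω) * wt g t (p.2 : Perm Ω) := by
    intro p hp
    simp only [prs, Finset.mem_filter, Finset.mem_univ, true_and] at hp
    obtain ⟨hs, x, hx⟩ := hp
    obtain ⟨h2, h3⟩ := near_le f g hx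
    rw [wt_eq, wt_eq, h2, hs, div_mul_div_comm, ← pow_add, ← mul_pow]
    have h4 : (256 : ℝ) * 256 = 65536 := by norm_num
    rw [h4]
    apply div_le_div_of_nonneg_right _ (by positivity)
    apply pow_le_pow_of_le_one ht.le ht1
    omega
  have h2 : ((prs f g H K s).card : ℝ) * (t ^ (3 * s) / 65536 ^ s) ≤
      (∑ h : H, wt f t h) * (∑ k : K, wt g t k) := by
    rw [Finset.sum_mul_sum, ← Finset.sum_product', ← nsmul_eq_mul]
    refine (Finset.card_nsmul_le_sum _ _ _ h1).trans ?_
    apply Finset.sum_le_sum_of_subset_of_nonneg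
    · intro p _
      exact Finset.mem_product.mpr ⟨Finset.mem_univ _, Finset.mem_univ _⟩
    · intro p _ _
      exact mul_nonneg (wt_nonneg _ ht.le _) (wt_nonneg _ ht.le _)
  have h3 : (∑ h : H, wt f t h) * (∑ k : K, wt g t k) ≤ (1 + t ^ 4) ^ (2 * e) := by
    rw [two_mul, pow_add]
    apply mul_le_mul hH hK
    · exact Finset.sum_nonneg (fun k _ => wt_nonneg _ ht.le _)
    · positivity
  have h4 := h2.trans h3
  rw [mul_div_assoc', div_le_iff₀ (by positivity)] at h4
  linarith

end Pool.Agent.Q6.SI
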