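import Mathlib

set_option autoImplicit false
set_option maxHeartbeats 400000

namespace Pool.Agent.Q6.SI

open Equiv

variable {Ω : Type} [Fintype Ω] [DecidableEq Ω] (f g : Ω → ℕ)

/-- no two points of a part of `f` go to the same part of `g` -/
def IsPack (x : Perm Ω) : Prop := ∀ a b, a ≠ b → f a = f b → g (x a) ≠ g (x b)

/-- the bad points for a switch at `a` -/
def bad (x : Perm Ω) (a : Ω) : Finset Ω :=
  Finset.univ.filter (fun c => (∃ d, f d = f a ∧ g (x c) = g (x d)) ∨
    ∃ d, f c = f d ∧ g (x d) = g (x a))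

lemma card_bad (hf : ∀ k, (Finset.univ.filter (fun a => f a = k)).card ≤ 7)
    (hg : ∀ k, (Finset.univ.filter (fun a => g a = k)).card ≤ 7) (x : Perm Ω) (a : Ω) :
    (bad f g x a).card ≤ 98 := by
  classical
  have h1 : bad f g x a ⊆
      ((Finset.univ.filter (fun d => f d = f a)).biUnion
        (fun d => Finset.univ.filter (fun c => g (x c) = g (x d)))) ∪
      ((Finset.univ.filter (fun d => g (x d) = g (x a))).biUnion
        (fun d => Finset.univ.filter (fun c => f c = f d))) := by
    intro c hc
    simp only [bad, Finset.mem_filter, Finset.mem_univ, true_and] at hc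
    simp only [Finset.mem_union, Finset.mem_biUnion, Finset.mem_filter, Finset.mem_univ, true_and]
    rcases hc with ⟨d, h1, h2⟩ | ⟨d, h1, h2⟩
    · exact Or.inl ⟨d, h1, h2⟩
    · exact Or.inr ⟨d, h2, h1⟩
  have hgx : ∀ k, (Finset.univ.filter (fun c => g (x c) = k)).card ≤ 7 := by
    intro k
    refine le_trans ?_ (hg k)
    apply Finset.card_le_card_of_injOn (fun c => x c)
    · intro c hc
      simpa using hc
    · intro c _ d _ h
      exact x.injective h
  refine (Finset.card_le_card h1).trans ((Finset.card_union_le _ _).trans ?_)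
  have h2 := Finset.card_biUnion_le_card_mul (Finset.univ.filter (fun d => f d = f a))
    (fun d => Finset.univ.filter (fun c => g (x c) = g (x d))) 7 (fun d _ => hgx _)
  have h3 := Finset.card_biUnion_le_card_mul (Finset.univ.filter (fun d => g (x d) = g (x a)))
    (fun d => Finset.univ.filter (fun c => f c = f d)) 7 (fun d _ => hf _)
  have h4 := hf (f a)
  have h5 := hgx (g (x a))
  omega

lemma switch (x : Perm Ω) (a c : Ω) (hc : c ∉ bad f g x a) {b d : Ω} (hbd : b ≠ d)
    (hf : f b = f d) (hg : g ((x * swap a c) b) = g ((x * swap a c) d)) :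
    b ≠ a ∧ b ≠ c ∧ d ≠ a ∧ d ≠ c := by
  simp only [bad, Finset.mem_filter, Finset.mem_univ, true_and, not_or, not_exists, not_and] at hc
  obtain ⟨hc1, hc2⟩ := hc
  have key : ∀ b d : Ω, b ≠ d → f b = f d → g ((x * swap a c) b) = g ((x * swap a c) d) →
      b ≠ a ∧ b ≠ c := by
    intro b d hbd hf hg
    simp only [Perm.mul_apply] at hg
    constructor
    · rintro rfl
      rw [swap_apply_left] at hg
      by_cases hd : d = c
      · subst hd
        exact hc1 d hf.symm rfl
      · rw [swap_apply_of_ne_of_ne hbd.symm hd] at hg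
        exact hc1 d hf.symm hg
    · rintro rfl
      rw [swap_apply_right] at hg
      by_cases hd : d = a
      · subst hd
        exact hc1 b hf rfl
      · rw [swap_apply_of_ne_of_ne hd hbd.symm] at hg
        exact hc2 d hf hg.symm
  obtain ⟨h1, h2⟩ := key b d hbd hf hg
  obtain ⟨h3, h4⟩ := key d b hbd.symm hf.symm hg.symm
  exact ⟨h1, h2, h3, h4⟩

lemma switch_pack {x : Perm Ω} (hx : IsPack f g x) (a c : Ω) (hc : c ∉ bad f g x a) :
    IsPack f g (x * swap a c) := by
  intro b d hbd hf hg
  obtain ⟨h1, h2, h3, h4⟩ := switch f g x a c hc hbd hf hg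
  simp only [Perm.mul_apply] at hg
  rw [swap_apply_of_ne_of_ne h1 h2, swap_apply_of_ne_of_ne h3 h4] at hg
  exact hx b d hbd hf hg

lemma exists_pack (hf : ∀ k, (Finset.univ.filter (fun a => f a = k)).card ≤ 7)
    (hg : ∀ k, (Finset.univ.filter (fun a => g a = k)).card ≤ 7) (hn : 99 ≤ Fintype.card Ω) :
    ∃ x, IsPack f g x := by
  classical
  let C : Perm Ω → Finset (Ω × Ω) := fun x =>
    Finset.univ.filter (fun p => p.1 ≠ p.2 ∧ f p.1 = f p.2 ∧ g (x p.1) = g (x p.2))
  obtain ⟨x, -, hx⟩ := Finset.exists_min_image (Finset.univ : Finset (Perm Ω))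
    (fun x => (C x).card) ⟨1, Finset.mem_univ _⟩
  refine ⟨x, ?_⟩
  intro a b hab hfab hgab
  obtain ⟨c, hc⟩ : ∃ c, c ∉ bad f g x a := by
    by_contra hcon
    push Not at hcon
    have h1 : bad f g x a = Finset.univ := by
      ext c
      simp [hcon c]
    have h2 := card_bad f g hf hg x a
    rw [h1, Finset.card_univ] at h2
    omega
  have hlt : (C (x * swap a c)).card < (C x).card := by
    apply Finset.card_lt_card
    rw [Finset.ssubset_iff_of_subset]
    · refine ⟨(a, b), by simp [C, hab, hfab, hgab], ?_⟩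
      intro hmem
      simp only [C, Finset.mem_filter, Finset.mem_univ, true_and] at hmem
      exact (switch f g x a c hc hmem.1 hmem.2.1 hmem.2.2).1 rfl
    · rintro ⟨p, q⟩ hpq
      simp only [C, Finset.mem_filter, Finset.mem_univ, true_and] at hpq ⊢
      obtain ⟨h1, h2, h3, h4⟩ := switch f g x a c hc hpq.1 hpq.2.1 hpq.2.2
      obtain ⟨hp1, hp2, hp3⟩ := hpq
      simp only [Perm.mul_apply] at hp3
      rw [swap_apply_of_ne_of_ne h1 h2, swap_apply_of_ne_of_ne h3 h4] at hp3
      exact ⟨hp1, hp2, hp3⟩
  exact absurd (hx _ (Finset.mem_univ _)) (not_le.mpr hlt)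

open Classical in
/-- the packings which agree with `x₀` on `S` -/
noncomputable def packs (S : Finset Ω) (x₀ : Perm Ω) : Finset (Perm Ω) :=
  Finset.univ.filter (fun x => IsPack f g x ∧ ∀ a ∈ S, x a = x₀ a)

lemma mem_packs {S : Finset Ω} {x₀ x : Perm Ω} :
    x ∈ packs f g S x₀ ↔ IsPack f g x ∧ ∀ a ∈ S, x a = x₀ a := by
  classical
  simp [packs]

lemma packs_mono {S S' : Finset Ω} (h : S ⊆ S') (x₀ : Perm Ω) :
    packs f g S' x₀ ⊆ packs f g S x₀ := by
  intro x hx
  rw [mem_packs] at hx ⊢
  exact ⟨hx.1, fun a ha => hx.2 a (h ha)⟩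

lemma packs_step (hf : ∀ k, (Finset.univ.filter (fun a => f a = k)).card ≤ 7)
    (hg : ∀ k, (Finset.univ.filter (fun a => g a = k)).card ≤ 7) (S : Finset Ω) (x₀ : Perm Ω)
    (a : Ω) (ha : a ∉ S) (B : ℕ) (hB : S.card + 99 + B ≤ Fintype.card Ω) :
    (packs f g (insert a S) x₀).card * B ≤ (packs f g S x₀).card := by
  classical
  let good : Perm Ω → Finset Ω := fun x => Finset.univ \ (insert a S ∪ bad f g x a)
  have hgood : ∀ x, B ≤ (good x).card := by
    intro x
    have h1 : (good x).card = Fintype.card Ω - (insert a S ∪ bad f g x a).card := by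
      simp only [good]
      rw [Finset.card_sdiff_of_subset (Finset.subset_univ _), Finset.card_univ]
    have h2 := Finset.card_union_le (insert a S) (bad f g x a)
    have h3 := card_bad f g hf hg x a
    have h4 := Finset.card_insert_le a S
    omega
  have h1 : (packs f g (insert a S) x₀).card * B ≤
      ((packs f g (insert a S) x₀).sigma good).card := by
    rw [Finset.card_sigma]
    exact Finset.card_nsmul_le_sum _ _ _ (fun x _ => hgood x)
  refine h1.trans ?_
  apply Finset.card_le_card_of_injOn (fun p => p.1 * swap a p.2)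
  · rintro ⟨x, c⟩ hxc
    simp only [Finset.coe_sigma, Set.mem_sigma_iff, Finset.mem_coe] at hxc
    obtain ⟨hx, hc⟩ := hxc
    simp only [good, Finset.mem_sdiff, Finset.mem_univ, true_and, Finset.mem_union, not_or] at hc
    rw [mem_packs] at hx
    rw [Finset.mem_coe, mem_packs]
    refine ⟨switch_pack f g hx.1 a c hc.2, ?_⟩
    intro b hb
    have hba : b ≠ a := fun h => ha (h ▸ hb)
    have hbc : b ≠ c := fun h => hc.1 (by rw [← h]; exact Finset.mem_insert_of_mem hb)
    rw [Perm.mul_apply, swap_apply_of_ne_of_ne hba hbc]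
    exact hx.2 b (Finset.mem_insert_of_mem hb)
  · rintro ⟨x, c⟩ hxc ⟨y, d⟩ hyd hxy
    simp only [Finset.coe_sigma, Set.mem_sigma_iff, Finset.mem_coe] at hxc hyd
    simp only at hxy
    have hx := (mem_packs f g).mp hxc.1
    have hy := (mem_packs f g).mp hyd.1
    have h2 : x a = y a := by
      rw [hx.2 a (Finset.mem_insert_self _ _), hy.2 a (Finset.mem_insert_self _ _)]
    have h3 : (x * swap a c) c = x a := by rw [Perm.mul_apply, swap_apply_right]
    have h4 : (y * swap a d) d = y a := by rw [Perm.mul_apply, swap_apply_right]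
    have h5 : c = d := by
      have : (x * swap a c) c = (x * swap a c) d := by
        rw [h3, hxy, h4, h2]
      exact (x * swap a c).injective this
    subst h5
    have h6 : x = y := mul_right_cancel hxy
    subst h6
    rfl

lemma packs_bound (hf : ∀ k, (Finset.univ.filter (fun a => f a = k)).card ≤ 7)
    (hg : ∀ k, (Finset.univ.filter (fun a => g a = k)).card ≤ 7) (x₀ : Perm Ω) (B : ℕ)
    (S : Finset Ω) : S.card + 98 + B ≤ Fintype.card Ω →
    (packs f g S x₀).card * B ^ S.card ≤ (packs f g ∅ x₀).card := by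
  classical
  induction S using Finset.induction_on with
  | empty => intro _; simp
  | insert a S ha ih =>
    intro hB
    rw [Finset.card_insert_of_notMem ha] at hB ⊢
    have h1 := ih (by omega)
    have h2 := packs_step f g hf hg S x₀ a ha B (by omega)
    calc (packs f g (insert a S) x₀).card * B ^ (S.card + 1)
        = (packs f g (insert a S) x₀).card * B * B ^ S.card := by ring
      _ ≤ (packs f g S x₀).card * B ^ S.card := Nat.mul_le_mul h2 le_rfl
      _ ≤ _ := h1

lemma packs_empty (x₀ x₁ : Perm Ω) : packs f g ∅ x₀ = packs f g ∅ x₁ := by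
  ext x
  rw [mem_packs, mem_packs]
  simp

end Pool.Agent.Q6.SI
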