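import Pool.Agent.Q6.SI.Str

set_option autoImplicit false
set_option maxHeartbeats 400000

namespace Pool.Agent.Q6.SI

open Equiv

variable {Ω ι : Type} (π : Ω → ι)

/-- restriction to a fibre -/
def res (M : Subgroup (Perm Ω)) (hM : ∀ m ∈ M, ∀ a, π (m a) = π a) (c : ι) :
    M →* Perm {a // π a = c} where
  toFun m := (m : Perm Ω).subtypePerm (fun a => by rw [hM m m.2 a])
  map_one' := by
    ext a
    rfl
  map_mul' m n := by
    ext a
    rfl

lemma res_apply (M : Subgroup (Perm Ω)) (hM : ∀ m ∈ M, ∀ a, π (m a) = π a) (c : ι) (m : M)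
    (a : {a // π a = c}) : ((res π M hM c m a : {a // π a = c}) : Ω) = (m : Perm Ω) a := rfl

/-- the restricted group -/
def rng (M : Subgroup (Perm Ω)) (hM : ∀ m ∈ M, ∀ a, π (m a) = π a) (c : ι) :
    Subgroup (Perm {a // π a = c}) := (res π M hM c).range

lemma rng_solvable (M : Subgroup (Perm Ω)) [Group.IsSolvable M]
    (hM : ∀ m ∈ M, ∀ a, π (m a) = π a) (c : ι) : Group.IsSolvable (rng π M hM c) :=
  Group.isSolvable_of_surjective (res π M hM c).rangeRestrict_surjective

def toPi (M : Subgroup (Perm Ω)) (hM : ∀ m ∈ M, ∀ a, π (m a) = π a) (m : M) (c : ι) :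
    rng π M hM c := ⟨res π M hM c m, m, rfl⟩

lemma toPi_injective (M : Subgroup (Perm Ω)) (hM : ∀ m ∈ M, ∀ a, π (m a) = π a) :
    Function.Injective (toPi π M hM) := by
  intro m n hmn
  apply Subtype.ext
  ext a
  have h1 := congrFun hmn (π a)
  have h2 : res π M hM (π a) m = res π M hM (π a) n := congrArg Subtype.val h1
  have h3 := congrArg (fun g : Perm {b // π b = π a} => ((g ⟨a, rfl⟩ : {b // π b = π a}) : Ω)) h2
  exact h3

lemma sum_le_prod [Fintype ι] [DecidableEq ι] (M : Subgroup (Perm Ω)) [Fintype M]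
    (hM : ∀ m ∈ M, ∀ a, π (m a) = π a) [∀ c, Fintype (rng π M hM c)]
    (W : Perm Ω → ℝ) (w : ∀ c, Perm {a // π a = c} → ℝ) (hw : ∀ c g, 0 ≤ w c g)
    (hW : ∀ m : M, W m = ∏ c, w c (res π M hM c m)) :
    ∑ m : M, W m ≤ ∏ c, ∑ g : rng π M hM c, w c g := by
  classical
  rw [Fintype.prod_sum]
  have h1 : ∑ m : M, W m = ∑ y ∈ Finset.univ.image (toPi π M hM), ∏ c, w c (y c) := by
    rw [Finset.sum_image (fun a _ b _ h => toPi_injective π M hM h)]
    exact Finset.sum_congr rfl (fun m _ => hW m)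
  rw [h1]
  apply Finset.sum_le_univ_sum_of_nonneg
  intro y
  exact Finset.prod_nonneg (fun c _ => hw c _)

end Pool.Agent.Q6.SI
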