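import Pool.Agent.Q6.SI.Hol

set_option autoImplicit false
set_option maxHeartbeats 400000

namespace Pool.Agent.Q6.SI

open Equiv

variable {Ω : Type}

/-- the image of a subgroup on the classes of a setoid -/
def img (K : Subgroup (Perm Ω)) (r : Setoid Ω) : Subgroup (Perm (Quotient r)) where
  carrier := {x | ∃ k ∈ K, ∀ a : Ω, x (Quotient.mk r a) = Quotient.mk r (k a)}
  one_mem' := ⟨1, K.one_mem, fun a => rfl⟩
  mul_mem' := by
    rintro x y ⟨k, hk, hkx⟩ ⟨l, hl, hly⟩
    refine ⟨k * l, K.mul_mem hk hl, fun a => ?_⟩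
    rw [Perm.mul_apply, hly, hkx]
    rfl
  inv_mem' := by
    rintro x ⟨k, hk, hkx⟩
    refine ⟨k⁻¹, K.inv_mem hk, fun a => ?_⟩
    rw [Perm.inv_eq_iff_eq, hkx]
    simp

/-- the orbit relation of a subgroup -/
def orb (N : Subgroup (Perm Ω)) : Setoid Ω where
  r a b := ∃ n ∈ N, n a = b
  iseqv := by
    refine ⟨fun a => ⟨1, N.one_mem, rfl⟩, ?_, ?_⟩
    · rintro a b ⟨n, hn, rfl⟩
      exact ⟨n⁻¹, N.inv_mem hn, by simp⟩
    · rintro a b c ⟨n, hn, rfl⟩ ⟨m, hm, rfl⟩
      exact ⟨m * n, N.mul_mem hm hn, rfl⟩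

lemma orb_iff (N : Subgroup (Perm Ω)) (a b : Ω) : (orb N) a b ↔ ∃ n ∈ N, n a = b := Iff.rfl

/-- `h` preserves the setoid -/
lemma orb_inv {N : Subgroup (Perm Ω)} {h : Perm Ω} (hh : ∀ n ∈ N, h * n * h⁻¹ ∈ N) {a b : Ω}
    (hab : (orb N) a b) : (orb N) (h a) (h b) := by
  obtain ⟨n, hn, rfl⟩ := hab
  exact ⟨h * n * h⁻¹, hh n hn, by simp⟩

/-- the members of `H` preserving each class -/
def ker (H : Subgroup (Perm Ω)) (r : Setoid Ω) : Subgroup (Perm Ω) where
  carrier := {h | h ∈ H ∧ ∀ a, r (h a) a}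
  one_mem' := ⟨H.one_mem, fun a => r.refl a⟩
  mul_mem' := by
    rintro x y ⟨hx, hx'⟩ ⟨hy, hy'⟩
    exact ⟨H.mul_mem hx hy, fun a => r.trans (hx' (y a)) (hy' a)⟩
  inv_mem' := by
    rintro x ⟨hx, hx'⟩
    refine ⟨H.inv_mem hx, fun a => ?_⟩
    have := hx' (x⁻¹ a)
    have h1 : x (x⁻¹ a) = a := by simp
    rw [h1] at this
    exact r.symm this

/-- the derived series as subgroups of the symmetric group -/
def D (H : Subgroup (Perm Ω)) (i : ℕ) : Subgroup (Perm Ω) := (derivedSeries H i).map H.subtype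

lemma D_le (H : Subgroup (Perm Ω)) (i : ℕ) : D H i ≤ H := by
  rintro _ ⟨x, -, rfl⟩
  exact x.2

lemma D_norm (H : Subgroup (Perm Ω)) (i : ℕ) {h n : Perm Ω} (hh : h ∈ H) (hn : n ∈ D H i) :
    h * n * h⁻¹ ∈ D H i := by
  obtain ⟨x, hx, rfl⟩ := hn
  have := (derivedSeries_normal H i).conj_mem x hx ⟨h, hh⟩
  exact ⟨_, this, rfl⟩

lemma D_comm (H : Subgroup (Perm Ω)) (i : ℕ) {t u : Perm Ω} (ht : t ∈ D H i) (hu : u ∈ D H i) :
    t * u * t⁻¹ * u⁻¹ ∈ D H (i + 1) := by
  obtain ⟨x, hx, rfl⟩ := ht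
  obtain ⟨y, hy, rfl⟩ := hu
  refine ⟨x * y * x⁻¹ * y⁻¹, ?_, rfl⟩
  rw [derivedSeries_succ]
  exact Subgroup.commutator_mem_commutator hx hy

lemma exists_level (H : Subgroup (Perm Ω)) [Group.IsSolvable H] (hne : ∃ a b : Ω, a ≠ b)
    (ht : ∀ a b : Ω, ∃ h ∈ H, h a = b) :
    ∃ i, (∀ a b : Ω, ∃ h ∈ D H i, h a = b) ∧ ∃ a b : Ω, ∀ h ∈ D H (i + 1), h a ≠ b := by
  classical
  obtain ⟨n, hn⟩ := (Group.isSolvable_def (G := H)).mp inferInstance
  have h0 : ∀ a b : Ω, ∃ h ∈ D H 0, h a = b := by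
    intro a b
    obtain ⟨h, hh, hab⟩ := ht a b
    exact ⟨h, ⟨⟨h, hh⟩, by simp [derivedSeries_zero], rfl⟩, hab⟩
  have hex : ∃ i, ¬ ∀ a b : Ω, ∃ h ∈ D H i, h a = b := by
    refine ⟨n, fun hall => ?_⟩
    obtain ⟨a, b, hab⟩ := hne
    obtain ⟨h, hh, hhab⟩ := hall a b
    rw [D, hn, Subgroup.map_bot, Subgroup.mem_bot] at hh
    rw [hh] at hhab
    exact hab (by simpa using hhab)
  obtain ⟨i, hi⟩ : ∃ i, Nat.find hex = i + 1 := by
    have : Nat.find hex ≠ 0 := by
      intro h1
      have := Nat.find_spec hex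
      rw [h1] at this
      exact this h0
    exact Nat.exists_eq_succ_of_ne_zero this
  refine ⟨i, ?_, ?_⟩
  · have := Nat.find_min hex (m := i) (by omega)
    simpa only [not_not] using this
  · have := Nat.find_spec hex
    rw [hi] at this
    push Not at this
    exact this

lemma mk_eq (r : Setoid Ω) (a b : Ω) : Quotient.mk r a = Quotient.mk r b ↔ r a b :=
  ⟨fun h => Quotient.exact h, fun h => Quotient.sound h⟩

lemma hol_img (H : Subgroup (Perm Ω)) (i : ℕ)
    (ht : ∀ a b : Ω, ∃ h ∈ D H i, h a = b) :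
    Hol (img H (orb (D H (i + 1)))) (img (D H i) (orb (D H (i + 1)))) where
  le := by
    rintro x ⟨k, hk, hx⟩
    exact ⟨k, D_le H i hk, hx⟩
  norm := by
    rintro x ⟨h, hh, hx⟩ t ⟨d, hd, htd⟩
    refine ⟨h * d * h⁻¹, D_norm H i hh hd, fun a => ?_⟩
    have h1 : x⁻¹ (Quotient.mk _ a) = Quotient.mk _ (h⁻¹ a) := by
      rw [Perm.inv_eq_iff_eq, hx]
      simp
    rw [Perm.mul_apply, Perm.mul_apply, h1, htd, hx]
    rfl
  comm := by
    rintro t ⟨d, hd, htd⟩ u ⟨e, he, hue⟩
    ext q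
    induction q using Quotient.inductionOn with
    | h a =>
      rw [Perm.mul_apply, Perm.mul_apply, hue, htd, htd, hue, mk_eq]
      refine ⟨e * d * e⁻¹ * d⁻¹, D_comm H i he hd, ?_⟩
      simp
  trans := by
    intro p q
    induction p using Quotient.inductionOn with
    | h a =>
      induction q using Quotient.inductionOn with
      | h b =>
        obtain ⟨d, hd, rfl⟩ := ht a b
        have hinv : ∀ x y : Ω, (orb (D H (i + 1))) x y ↔ (orb (D H (i + 1))) (d x) (d y) := by
          intro x y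
          constructor
          · exact orb_inv (fun n hn => D_norm H (i + 1) (D_le H i hd) hn)
          · intro h
            have := orb_inv (h := d⁻¹)
              (fun n hn => D_norm H (i + 1) (H.inv_mem (D_le H i hd)) hn) h
            simpa using this
        exact ⟨Quotient.congr d hinv, ⟨d, hd, fun x => rfl⟩, rfl⟩

lemma card_class (H : Subgroup (Perm Ω)) [Fintype Ω] [DecidableEq Ω] (r : Setoid Ω)
    [DecidableRel r] (hr : ∀ h ∈ H, ∀ a b, r a b → r (h a) (h b))
    (ht : ∀ a b : Ω, ∃ h ∈ H, h a = b) (a b : Ω) :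
    (Finset.univ.filter (fun x => r x a)).card = (Finset.univ.filter (fun x => r x b)).card := by
  obtain ⟨h, hh, rfl⟩ := ht a b
  refine Finset.card_bij (fun x _ => h x) ?_ ?_ ?_
  · intro x hx
    simp only [Finset.mem_filter, Finset.mem_univ, true_and] at hx ⊢
    exact hr h hh _ _ hx
  · intro x _ y _ hxy
    exact h.injective hxy
  · intro y hy
    simp only [Finset.mem_filter, Finset.mem_univ, true_and] at hy
    refine ⟨h⁻¹ y, ?_, by simp⟩
    simp only [Finset.mem_filter, Finset.mem_univ, true_and]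
    have := hr h⁻¹ (H.inv_mem hh) _ _ hy
    simpa using this

lemma card_le_img (H : Subgroup (Perm Ω)) [Finite Ω] (r : Setoid Ω)
    (hr : ∀ h ∈ H, ∀ a b, r a b → r (h a) (h b)) :
    Nat.card H ≤ Nat.card (img H r) * Nat.card (ker H r) := by
  classical
  have hr' : ∀ h ∈ H, ∀ a b, r a b ↔ r (h a) (h b) := by
    intro h hh a b
    refine ⟨hr h hh a b, fun h1 => ?_⟩
    have := hr h⁻¹ (H.inv_mem hh) _ _ h1
    simpa using this
  let x : H → img H r := fun h => ⟨Quotient.congr h.1 (hr' h.1 h.2), h.1, h.2, fun a => rfl⟩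
  have hx : ∀ (h : H) (a : Ω), (x h : Perm (Quotient r)) (Quotient.mk r a) =
    Quotient.mk r (h.1 a) := fun h a => rfl
  have hsec : ∀ y : img H r, ∃ h ∈ H, ∀ a : Ω, (y : Perm (Quotient r)) (Quotient.mk r a) =
    Quotient.mk r (h a) := fun y => y.2
  choose g hgH hg using hsec
  have hmem : ∀ h : H, (g (x h))⁻¹ * h.1 ∈ ker H r := by
    intro h
    refine ⟨H.mul_mem (H.inv_mem (hgH _)) h.2, fun a => ?_⟩
    have h1 := hg (x h) a
    rw [hx, mk_eq] at h1
    have h2 := hr (g (x h))⁻¹ (H.inv_mem (hgH _)) _ _ h1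
    simpa using h2
  let f : H → img H r × ker H r := fun h => (x h, ⟨_, hmem h⟩)
  have hf : Function.Injective f := by
    intro h k hhk
    simp only [f, Prod.mk.injEq, Subtype.mk.injEq] at hhk
    obtain ⟨h1, h2⟩ := hhk
    rw [h1] at h2
    exact Subtype.ext (mul_left_cancel h2)
  have := Nat.card_le_card_of_injective f hf
  rwa [Nat.card_prod] at this

lemma card_eq_mul [Fintype Ω] [DecidableEq Ω] (r : Setoid Ω) [DecidableRel r] (s : ℕ)
    [Fintype (Quotient r)] [DecidableEq (Quotient r)]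
    (hs : ∀ a, (Finset.univ.filter (fun x => r x a)).card = s) (P : Quotient r → Prop)
    [DecidablePred P] :
    (Finset.univ.filter (fun a : Ω => P (Quotient.mk r a))).card =
      (Finset.univ.filter P).card * s := by
  rw [Finset.card_eq_sum_card_fiberwise (f := fun a : Ω => Quotient.mk r a)
    (t := Finset.univ.filter P)]
  · rw [Finset.sum_congr rfl (g := fun _ => s), Finset.sum_const, smul_eq_mul]
    intro q hq
    simp only [Finset.mem_filter, Finset.mem_univ, true_and] at hq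
    induction q using Quotient.inductionOn with
    | h a =>
      rw [← hs a, Finset.filter_filter]
      congr 1
      ext x
      simp only [Finset.mem_filter, Finset.mem_univ, true_and]
      constructor
      · rintro ⟨-, h⟩
        exact (mk_eq r x a).mp h
      · intro h
        have h1 := (mk_eq r x a).mpr h
        exact ⟨by rw [h1]; exact hq, h1⟩
  · intro a ha
    simp only [Finset.coe_filter, Finset.mem_univ, true_and, Set.mem_ofPred_eq] at ha ⊢
    exact ha

/-- the structure of a transitive solvable group -/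
theorem structure_lemma (H : Subgroup (Perm Ω)) [Group.IsSolvable H] [Fintype Ω] [DecidableEq Ω]
    (hne : ∃ a b : Ω, a ≠ b) (ht : ∀ a b : Ω, ∃ h ∈ H, h a = b) :
    ∃ r : Setoid Ω, (∃ a b, ¬ r a b) ∧ (∀ h ∈ H, ∀ a b, r a b → r (h a) (h b)) ∧
      (∀ h ∈ H, (∀ a, r (h a) a) ∨ ∀ s : Finset Ω, (∀ a, ¬ r (h a) a → a ∈ s) →
        Fintype.card Ω ≤ 2 * s.card) ∧
      Nat.card H ≤ 16 ^ (Nat.card (Quotient r) - 1) * Nat.card (ker H r) := by
  classical
  obtain ⟨i, h1, h2⟩ := exists_level H hne ht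
  set r := orb (D H (i + 1)) with hrdef
  have hhol := hol_img H i h1
  rw [← hrdef] at hhol
  have hinv : ∀ h ∈ H, ∀ a b, r a b → r (h a) (h b) := fun h hh a b =>
    orb_inv (fun n hn => D_norm H (i + 1) hh hn)
  have hinv' : ∀ h ∈ H, ∀ a b, r a b ↔ r (h a) (h b) := by
    intro h hh a b
    refine ⟨hinv h hh a b, fun h1 => ?_⟩
    have := hinv h⁻¹ (H.inv_mem hh) _ _ h1
    simpa using this
  obtain ⟨a₀, b₀, -⟩ := hne
  have : Nonempty (Quotient r) := ⟨Quotient.mk r a₀⟩
  refine ⟨r, ?_, hinv, ?_, ?_⟩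
  · obtain ⟨a, b, hab⟩ := h2
    exact ⟨a, b, fun ⟨n, hn, h⟩ => hab n hn h⟩
  · intro h hh
    let x : Perm (Quotient r) := Quotient.congr h (hinv' h hh)
    have hx : x ∈ img H r := ⟨h, hh, fun a => rfl⟩
    have hxa : ∀ a : Ω, x (Quotient.mk r a) = Quotient.mk r (h a) := fun a => rfl
    by_cases hx1 : x = 1
    · left
      intro a
      have := hxa a
      rw [hx1] at this
      exact (mk_eq r _ _).mp this.symm
    · right
      intro s hs
      have h3 := hhol.fix_le hx hx1
      have hsz : ∀ a, (Finset.univ.filter (fun x => r x a)).card =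
          (Finset.univ.filter (fun x => r x a₀)).card :=
        fun a => card_class H r hinv ht a a₀
      have h4 := card_eq_mul r _ hsz (fun q => x q = q)
      have h5 := card_eq_mul r _ hsz (fun _ => True)
      simp only [Finset.filter_true, Finset.card_univ] at h5
      have h6 : Fintype.card Ω ≤ s.card +
          (Finset.univ.filter (fun a : Ω => x (Quotient.mk r a) = Quotient.mk r a)).card := by
        refine le_trans ?_ (Finset.card_union_le _ _)
        rw [← Finset.card_univ]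
        apply Finset.card_le_card
        intro a _
        rw [Finset.mem_union]
        by_cases ha : r (h a) a
        · right
          simp only [Finset.mem_filter, Finset.mem_univ, true_and]
          rw [hxa, mk_eq]
          exact ha
        · exact Or.inl (hs a ha)
      rw [h4] at h6
      nlinarith
  · exact (card_le_img H r hinv).trans (Nat.mul_le_mul hhol.card_le le_rfl)

end Pool.Agent.Q6.SI
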